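import Pool.Agent.Helper50.SO.ZeroOne

set_option autoImplicit false

/-! A computable test for spread-outness of a list of vectors. -/

namespace Helper50.SO

open Helper13.TS (SpreadOut)

/-- Coordinatewise minimum. -/
def mn : List ℕ → List ℕ → List ℕ
  | [], _ => []
  | _, [] => []
  | a :: l, b :: l' => min a b :: mn l l'

/-- All the pairs (size, meet) of the nonempty subfamilies. -/
def subs : List (List ℕ) → List (ℕ × List ℕ)
  | [] => []
  | r :: L => (1, r) :: ((subs L).map (fun p => (p.1 + 1, mn r p.2)) ++ subs L)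

/-- The test. -/
def soB (n : ℕ) (L : List (List ℕ)) : Bool :=
  (subs L).all (fun p => Nat.ble (p.2.sum + p.1) n)

/-- `m ≤ r` coordinatewise. -/
def Le (m r : List ℕ) : Prop := List.Forall₂ (· ≤ ·) m r

theorem le_mn {m r s : List ℕ} (h1 : Le m r) (h2 : Le m s) : Le m (mn r s) := by
  unfold Le at *
  induction h1 generalizing s with
  | nil =>
    cases h2
    exact List.Forall₂.nil
  | cons ha _ ih =>
    cases h2 with
    | cons hb h2 => exact List.Forall₂.cons (le_min ha hb) (ih h2)

theorem mn_le_left {r s : List ℕ} (h : r.length = s.length) : Le (mn r s) r := by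
  induction r generalizing s with
  | nil => exact List.Forall₂.nil
  | cons a r ih =>
    cases s with
    | nil => simp at h
    | cons b s => exact List.Forall₂.cons (min_le_left _ _) (ih (by simpa using h))

theorem mn_le_right {r s : List ℕ} (h : r.length = s.length) : Le (mn r s) s := by
  induction r generalizing s with
  | nil =>
    cases s with
    | nil => exact List.Forall₂.nil
    | cons b s => simp at h
  | cons a r ih =>
    cases s with
    | nil => simp at h
    | cons b s => exact List.Forall₂.cons (min_le_right _ _) (ih (by simpa using h))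

theorem length_mn {r s : List ℕ} (h : r.length = s.length) : (mn r s).length = r.length := by
  induction r generalizing s with
  | nil => rfl
  | cons a r ih =>
    cases s with
    | nil => simp at h
    | cons b s => simp [mn, ih (s := s) (by simpa using h)]

theorem Le.trans {a b c : List ℕ} (h1 : Le a b) (h2 : Le b c) : Le a c := by
  unfold Le at *
  induction h1 generalizing c with
  | nil =>
    cases h2
    exact List.Forall₂.nil
  | cons ha _ ih =>
    cases h2 with
    | cons hb h2 => exact List.Forall₂.cons (ha.trans hb) (ih h2)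

theorem Le.sum_le {a b : List ℕ} (h : Le a b) : a.sum ≤ b.sum := by
  unfold Le at h
  induction h with
  | nil => rfl
  | cons ha _ ih => simpa using Nat.add_le_add ha ih

/-- soundness: every nonempty sublist is dominated by an entry of `subs` -/
theorem exists_mem_subs {L S : List (List ℕ)} (h : S.Sublist L) (hS : S ≠ []) :
    ∃ p ∈ subs L, p.1 = S.length ∧ ∀ m, (∀ r ∈ S, Le m r) → Le m p.2 := by
  induction h with
  | slnil => exact absurd rfl hS
  | @cons S L r h ih =>
    obtain ⟨p, hp, h1, h2⟩ := ih hS
    exact ⟨p, by simp [subs, hp], h1, h2⟩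
  | @cons_cons S L r h ih =>
    rcases eq_or_ne S [] with rfl | hne
    · exact ⟨(1, r), by simp [subs], rfl, fun m hm => hm r (by simp)⟩
    · obtain ⟨p, hp, h1, h2⟩ := ih hne
      refine ⟨(p.1 + 1, mn r p.2), ?_, by simp [h1], fun m hm => ?_⟩
      · simp only [subs, List.mem_cons, List.mem_append, List.mem_map]
        exact Or.inr (Or.inl ⟨p, hp, rfl⟩)
      · exact le_mn (hm r (by simp)) (h2 m fun s hs => hm s (by simp [hs]))

/-- completeness: every entry of `subs` comes from a nonempty sublist -/
theorem exists_sublist {d : ℕ} {L : List (List ℕ)} (hL : ∀ r ∈ L, r.length = d) {p : ℕ × List ℕ}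
    (hp : p ∈ subs L) : ∃ S : List (List ℕ), S.Sublist L ∧ S ≠ [] ∧ p.1 = S.length ∧
      p.2.length = d ∧ ∀ r ∈ S, Le p.2 r := by
  induction L generalizing p with
  | nil => simp [subs] at hp
  | cons r L ih =>
    have hr := hL r (by simp)
    have hL' : ∀ s ∈ L, s.length = d := fun s hs => hL s (by simp [hs])
    simp only [subs, List.mem_cons, List.mem_append, List.mem_map] at hp
    rcases hp with rfl | ⟨q, hq, rfl⟩ | hp
    · refine ⟨[r], by simp, by simp, rfl, hr, ?_⟩
      intro s hs
      rw [List.mem_singleton] at hs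
      subst hs
      unfold Le
      exact List.forall₂_same.2 fun _ _ => le_rfl
    · obtain ⟨S, h1, h2, h3, h4, h5⟩ := ih hL' hq
      refine ⟨r :: S, h1.cons_cons r, by simp, by simp [h3], ?_, ?_⟩
      · rw [length_mn (by rw [hr, h4]), hr]
      · intro s hs
        rcases List.mem_cons.1 hs with rfl | hs
        · exact mn_le_left (by rw [hr, h4])
        · exact (mn_le_right (by rw [hr, h4])).trans (h5 s hs)
    · obtain ⟨S, h1, h2⟩ := ih hL' hp
      exact ⟨S, h1.cons r, h2⟩

/-- The rows of a matrix as a list. -/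
def rows {n d : ℕ} (v : Fin n → Fin d → ℕ) : List (List ℕ) :=
  List.ofFn fun i => List.ofFn (v i)

theorem le_ofFn {d : ℕ} {f g : Fin d → ℕ} : Le (List.ofFn f) (List.ofFn g) ↔ ∀ c, f c ≤ g c := by
  unfold Le
  rw [List.forall₂_iff_get]
  constructor
  · rintro ⟨-, h⟩ c
    simpa using h c.1 (by simp) (by simp)
  · intro h
    refine ⟨by simp, fun i h1 h2 => ?_⟩
    simpa using h ⟨i, by simpa using h1⟩

/-- A nonempty set of labels gives a sublist of rows. -/
theorem sublist_of_finset {n d : ℕ} (v : Fin n → Fin d → ℕ) (J : Finset (Fin n)) :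
    ∃ S : List (List ℕ), S.Sublist (rows v) ∧ S.length = J.card ∧
      ∀ r ∈ S, ∃ j ∈ J, r = List.ofFn (v j) := by
  classical
  refine ⟨((List.finRange n).filter (fun j => j ∈ J)).map (fun i => List.ofFn (v i)), ?_, ?_, ?_⟩
  · unfold rows
    rw [List.ofFn_eq_map]
    exact (List.filter_sublist).map _
  · rw [List.length_map]
    have h1 : ((List.finRange n).filter (fun j => decide (j ∈ J))).Nodup :=
      (List.nodup_finRange n).filter _
    rw [← List.toFinset_card_of_nodup h1]
    congr 1
    ext j
    simp
  · intro r hr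
    obtain ⟨j, hj, rfl⟩ := List.mem_map.1 hr
    have := (List.mem_filter.1 hj).2
    exact ⟨j, by simpa using this, rfl⟩

/-- A sublist of rows comes from a set of labels. -/
theorem finset_of_sublist {n d : ℕ} (v : Fin n → Fin d → ℕ) {S : List (List ℕ)}
    (h : S.Sublist (rows v)) : ∃ J : Finset (Fin n), J.card = S.length ∧
      ∀ j ∈ J, List.ofFn (v j) ∈ S := by
  classical
  unfold rows at h
  rw [List.ofFn_eq_map] at h
  obtain ⟨I, hI, rfl⟩ := List.sublist_map_iff.1 h
  refine ⟨I.toFinset, ?_, ?_⟩
  · rw [List.length_map]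
    exact List.toFinset_card_of_nodup (hI.nodup (List.nodup_finRange n))
  · intro j hj
    exact List.mem_map.2 ⟨j, List.mem_toFinset.1 hj, rfl⟩

theorem spreadOut_of_soB {n d : ℕ} {v : Fin n → Fin d → ℕ} (h : soB n (rows v) = true) :
    SpreadOut n v := by
  intro J hJ m hm
  obtain ⟨S, hS, hl, hSJ⟩ := sublist_of_finset v J
  have hne : S ≠ [] := by
    rintro rfl
    have := hJ.card_pos
    simp at hl
    omega
  obtain ⟨p, hp, h1, h2⟩ := exists_mem_subs hS hne
  have h3 := h2 (List.ofFn m) (by
    intro r hr
    obtain ⟨j, hj, rfl⟩ := hSJ r hr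
    exact le_ofFn.2 (hm j hj))
  have h4 := h3.sum_le
  rw [List.sum_ofFn] at h4
  have h5 := List.all_eq_true.1 h p hp
  have h6 := Nat.le_of_ble_eq_true h5
  omega

theorem soB_of_spreadOut {n d : ℕ} {v : Fin n → Fin d → ℕ} (h : SpreadOut n v) :
    soB n (rows v) = true := by
  unfold soB
  rw [List.all_eq_true]
  intro p hp
  obtain ⟨S, hS, hne, h1, h2, h3⟩ := exists_sublist (d := d) (by
    intro r hr
    unfold rows at hr
    obtain ⟨i, rfl⟩ := List.mem_ofFn.1 hr
    simp) hp
  obtain ⟨J, hJ, hJS⟩ := finset_of_sublist v hS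
  have hJn : J.Nonempty := by
    rw [← Finset.card_pos, hJ]
    exact List.length_pos_iff.2 hne
  have hm : p.2 = List.ofFn (fun c : Fin d => p.2.getD c.1 0) := by
    apply List.ext_getElem
    · simp [h2]
    · intro i h4 h5
      simp [List.getD_eq_getElem?_getD, h4]
  have h4 := h J hJn (fun c => p.2.getD c.1 0) (by
    intro j hj c
    have h5 := h3 _ (hJS j hj)
    rw [hm] at h5
    exact le_ofFn.1 h5 c)
  have h5 : ∑ c : Fin d, p.2.getD c.1 0 = p.2.sum := by
    conv_rhs => rw [hm, List.sum_ofFn]
  rw [h5] at h4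
  have h6 : J.card ≤ n := by simpa using Finset.card_le_univ J
  have : p.2.sum + p.1 ≤ n := by omega
  exact Nat.ble_eq_true_of_le this

end Helper50.SO
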