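import Pool.Agent.Helper50.SO.LowMerge

set_option autoImplicit false

/-! The induction on the number of colours. -/

namespace Helper50.SO

open Helper13.TS (SpreadOut)
open Pool.Agent.Helper28.SO (TreeFam TRealized mergeV sum_mergeV Realized)

variable {n d : ℕ}

/-- A colour which is used less than `k` times. -/
theorem exists_low {v : Fin n → Fin d → ℕ} (hv : ∀ i, ∑ c, v i c = n - 1) (k : ℕ)
    (h : n * (n - 1) < k * d) : ∃ y, ∑ i, v i y < k := by
  by_contra hcon
  push Not at hcon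
  have h1 : ∑ y, ∑ i, v i y = n * (n - 1) := by
    rw [Finset.sum_comm, Finset.sum_congr rfl fun i _ => hv i]
    simp
  have h2 : ∑ _y : Fin d, k ≤ ∑ y, ∑ i, v i y := Finset.sum_le_sum fun y _ => hcon y
  rw [h1, Finset.sum_const, Finset.card_univ, Fintype.card_fin, smul_eq_mul, mul_comm] at h2
  omega

/-- The step: enough colours. -/
theorem tRealized_step (hn : 1 ≤ n) (hd : 2 ≤ d) (h : n * (n - 1) < min 4 d * (d + 1))
    (ih : ∀ w : Fin n → Fin d → ℕ, (∀ i, ∑ c, w i c = n - 1) → SpreadOut n w → TRealized n d w)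
    (v : Fin n → Fin (d + 1) → ℕ) (hv : ∀ i, ∑ c, v i c = n - 1) (hs : SpreadOut n v) :
    TRealized n (d + 1) v := by
  obtain ⟨y, hy⟩ := exists_low hv (min 4 d) h
  obtain ⟨s, h1⟩ := exists_merge_of_sum_le_three hs hv y (by omega) (by omega)
  exact TRealized.merge hn hd y s v (ih _ (fun i => (sum_mergeV y s _).trans (hv i)) h1)

theorem tRealized_three {n : ℕ} (hn : 1 ≤ n) (v : Fin n → Fin 3 → ℕ)
    (hv : ∀ k, ∑ c, v k c = n - 1) (hs : SpreadOut n v) : TRealized n 3 v := by
  obtain ⟨T, hT, h⟩ := Helper13.TS.treeFam3 hn v hv hs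
  exact ⟨T, hT, hv, h⟩

/-- At most three colours. -/
theorem tRealized_le_three (hn : 1 ≤ n) (hd : 1 ≤ d) (hd3 : d ≤ 3) (v : Fin n → Fin d → ℕ)
    (hv : ∀ i, ∑ c, v i c = n - 1) (hs : SpreadOut n v) : TRealized n d v := by
  interval_cases d
  · exact ⟨_, Pool.Agent.Helper28.SO.treeFam_one n hn, hv, fun k => rfl⟩
  · exact Pool.Agent.Helper28.SO.tRealized_two hn v hv (hs.injective hv)
  · exact tRealized_three hn v hv hs

/-- All numbers of colours from finitely many. -/
theorem tRealized_all (hn : 1 ≤ n) (D : ℕ) (hD : 3 ≤ D)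
    (hb : ∀ d, 4 ≤ d → d ≤ D → ∀ v : Fin n → Fin d → ℕ, (∀ i, ∑ c, v i c = n - 1) →
      SpreadOut n v → TRealized n d v)
    (h : ∀ d, D ≤ d → n * (n - 1) < min 4 d * (d + 1)) : ∀ d, 1 ≤ d → ∀ v : Fin n → Fin d → ℕ,
      (∀ i, ∑ c, v i c = n - 1) → SpreadOut n v → TRealized n d v := by
  intro d
  induction d with
  | zero => intro hd; omega
  | succ d ih =>
    intro _ v hv hs
    by_cases h1 : d + 1 ≤ 3
    · exact tRealized_le_three hn (by omega) h1 v hv hs
    · by_cases h2 : d + 1 ≤ D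
      · exact hb (d + 1) (by omega) h2 v hv hs
      · exact tRealized_step hn (by omega) (h d (by omega)) (ih (by omega)) v hv hs

/-- From families to sets. -/
theorem realized_of_tRealized (hn : 1 ≤ n) (hd : 1 ≤ d)
    (H : ∀ v : Fin n → Fin d → ℕ, (∀ i, ∑ c, v i c = n - 1) → SpreadOut n v → TRealized n d v)
    (U : Finset (Fin d → ℕ)) (hU : U.card = n) (hsum : ∀ v ∈ U, ∑ c, v c = n - 1)
    (h : ∀ W ⊆ U, W.Nonempty → ∀ m : Fin d → ℕ, (∀ w ∈ W, ∀ x, m x ≤ w x) →
      ∑ x, m x ≤ n - W.card) : Realized n d U := by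
  classical
  let φ : Fin n ≃ U := (finCongr hU.symm).trans U.equivFin.symm
  let v : Fin n → Fin d → ℕ := fun k => (φ k : Fin d → ℕ)
  have hvU : ∀ k, v k ∈ U := fun k => (φ k).2
  have hinj : Function.Injective v := fun i j hij => φ.injective (Subtype.ext hij)
  have hT : TRealized n d v := by
    refine H v (fun k => hsum _ (hvU k)) ?_
    intro J hJ m hm
    have h1 := h (J.image v) (by
      intro w hw
      obtain ⟨k, -, rfl⟩ := Finset.mem_image.1 hw
      exact hvU k) (hJ.image v) m (by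
      intro w hw
      obtain ⟨k, hk, rfl⟩ := Finset.mem_image.1 hw
      exact hm k hk)
    rw [Finset.card_image_of_injective _ hinj] at h1
    exact h1
  refine hT.realized hn hd U ?_
  intro u
  constructor
  · intro hu
    refine ⟨φ.symm ⟨u, hu⟩, ?_⟩
    show ((φ (φ.symm ⟨u, hu⟩) : U) : Fin d → ℕ) = u
    rw [Equiv.apply_symm_apply]
  · rintro ⟨k, rfl⟩
    exact hvU k

/-- `n (n - 1) < min 4 d (d + 1)` for `d ≥ D` from the case `d = D`. -/
theorem lt_of_base {N D : ℕ} (h : N < min 4 D * (D + 1)) : ∀ d, D ≤ d → N < min 4 d * (d + 1) := by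
  intro d hd
  refine h.trans_le (Nat.mul_le_mul ?_ (by omega))
  exact min_le_min_left 4 hd

end Helper50.SO
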