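import Pool.Agent.Helper50.SO.Cert

set_option autoImplicit false

/-! Certificates for the sets of four positions with four colours which cannot be merged. -/

namespace Helper50.SO

/-- Trees for the positions 3000 0300 0030 0003. -/
def t44_0 : List Entry := [
  ([3, 0, 0, 0], [15, 1, 1, 1], [(0, 1), (0, 2), (0, 3), (0, 0), (1, 0), (2, 0), (3, 0)]),
  ([2, 1, 0, 0], [6, 1, 11, 1], [(0, 2), (0, 1), (1, 0), (2, 1), (2, 3), (2, 0), (3, 0)]),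
  ([2, 0, 1, 0], [4, 5, 11, 1], [(0, 2), (1, 2), (1, 0), (2, 1), (2, 3), (2, 0), (3, 0)]),
  ([2, 0, 0, 1], [14, 1, 9, 1], [(0, 1), (0, 2), (0, 3), (1, 0), (2, 3), (2, 0), (3, 0)]),
  ([1, 2, 0, 0], [6, 9, 2, 3], [(0, 2), (0, 1), (1, 3), (1, 0), (2, 1), (3, 0), (3, 1)]),
  ([1, 1, 1, 0], [4, 13, 2, 3], [(0, 2), (1, 2), (1, 3), (1, 0), (2, 1), (3, 0), (3, 1)]),
  ([1, 1, 0, 1], [6, 9, 10, 1], [(0, 2), (0, 1), (2, 1), (2, 3), (1, 3), (1, 0), (3, 0)]),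
  ([1, 0, 2, 0], [4, 4, 11, 5], [(0, 2), (1, 2), (2, 1), (2, 3), (2, 0), (3, 0), (3, 2)]),
  ([1, 0, 1, 1], [4, 13, 10, 1], [(0, 2), (1, 2), (2, 1), (2, 3), (1, 3), (1, 0), (3, 0)]),
  ([1, 0, 0, 2], [14, 9, 8, 1], [(0, 1), (0, 2), (0, 3), (2, 3), (1, 3), (1, 0), (3, 0)]),
  ([0, 3, 0, 0], [2, 15, 2, 2], [(0, 1), (1, 0), (1, 2), (1, 3), (1, 1), (2, 1), (3, 1)]),
  ([0, 2, 1, 0], [6, 13, 2, 2], [(1, 0), (1, 3), (1, 2), (0, 2), (0, 1), (2, 1), (3, 1)]),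
  ([0, 2, 0, 1], [6, 8, 10, 3], [(0, 2), (0, 1), (1, 3), (2, 3), (2, 1), (3, 0), (3, 1)]),
  ([0, 1, 2, 0], [4, 12, 2, 7], [(0, 2), (1, 3), (1, 2), (2, 1), (3, 0), (3, 1), (3, 2)]),
  ([0, 1, 1, 1], [4, 8, 10, 7], [(0, 2), (1, 3), (2, 3), (2, 1), (3, 0), (3, 1), (3, 2)]),
  ([0, 1, 0, 2], [14, 8, 8, 3], [(0, 2), (1, 3), (2, 3), (0, 3), (0, 1), (3, 0), (3, 1)]),
  ([0, 0, 3, 0], [4, 4, 15, 4], [(0, 2), (1, 2), (2, 0), (2, 1), (2, 3), (2, 2), (3, 2)]),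
  ([0, 0, 2, 1], [4, 12, 10, 5], [(0, 2), (2, 1), (2, 3), (1, 3), (1, 2), (3, 0), (3, 2)]),
  ([0, 0, 1, 2], [12, 8, 8, 7], [(1, 3), (2, 3), (0, 3), (0, 2), (3, 0), (3, 1), (3, 2)]),
  ([0, 0, 0, 3], [8, 8, 8, 15], [(0, 3), (1, 3), (2, 3), (3, 0), (3, 1), (3, 2), (3, 3)])]

/-- Trees for the positions 2100 1200 0021 0012. -/
def t44_1 : List Entry := [
  ([3, 0, 0, 0], [13, 1, 3, 1], [(0, 2), (0, 3), (0, 0), (1, 0), (2, 1), (2, 0), (3, 0)]),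
  ([2, 1, 0, 0], [15, 1, 2, 1], [(0, 2), (0, 3), (1, 0), (2, 1), (0, 1), (0, 0), (3, 0)]),
  ([2, 0, 1, 0], [4, 13, 3, 1], [(0, 2), (1, 2), (1, 3), (1, 0), (2, 1), (2, 0), (3, 0)]),
  ([2, 0, 0, 1], [12, 9, 3, 1], [(0, 2), (0, 3), (1, 3), (1, 0), (2, 1), (2, 0), (3, 0)]),
  ([1, 2, 0, 0], [2, 15, 2, 1], [(0, 1), (1, 2), (1, 3), (2, 1), (1, 1), (1, 0), (3, 0)]),
  ([1, 1, 1, 0], [6, 13, 2, 1], [(1, 3), (2, 1), (0, 1), (0, 2), (1, 2), (1, 0), (3, 0)]),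
  ([1, 1, 0, 1], [14, 9, 2, 1], [(0, 2), (2, 1), (0, 1), (0, 3), (1, 3), (1, 0), (3, 0)]),
  ([1, 0, 2, 0], [4, 12, 3, 5], [(0, 2), (1, 3), (1, 2), (2, 1), (2, 0), (3, 0), (3, 2)]),
  ([1, 0, 1, 1], [4, 8, 11, 5], [(0, 2), (1, 3), (2, 1), (2, 3), (2, 0), (3, 0), (3, 2)]),
  ([1, 0, 0, 2], [12, 8, 11, 1], [(0, 2), (0, 3), (1, 3), (2, 1), (2, 3), (2, 0), (3, 0)]),
  ([0, 3, 0, 0], [2, 14, 2, 3], [(0, 1), (1, 2), (1, 3), (1, 1), (2, 1), (3, 0), (3, 1)]),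
  ([0, 2, 1, 0], [6, 12, 2, 3], [(1, 3), (1, 2), (0, 2), (0, 1), (2, 1), (3, 0), (3, 1)]),
  ([0, 2, 0, 1], [14, 8, 2, 3], [(0, 2), (1, 3), (0, 3), (0, 1), (2, 1), (3, 0), (3, 1)]),
  ([0, 1, 2, 0], [4, 12, 2, 7], [(0, 2), (1, 3), (1, 2), (2, 1), (3, 0), (3, 1), (3, 2)]),
  ([0, 1, 1, 1], [4, 8, 10, 7], [(0, 2), (1, 3), (2, 3), (2, 1), (3, 0), (3, 1), (3, 2)]),
  ([0, 1, 0, 2], [12, 8, 10, 3], [(0, 2), (0, 3), (1, 3), (2, 3), (2, 1), (3, 0), (3, 1)]),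
  ([0, 0, 3, 0], [4, 12, 7, 4], [(0, 2), (1, 3), (1, 2), (2, 0), (2, 1), (2, 2), (3, 2)]),
  ([0, 0, 2, 1], [4, 8, 15, 4], [(0, 2), (1, 3), (2, 0), (2, 1), (2, 3), (2, 2), (3, 2)]),
  ([0, 0, 1, 2], [4, 8, 8, 15], [(0, 2), (1, 3), (2, 3), (3, 0), (3, 1), (3, 2), (3, 3)]),
  ([0, 0, 0, 3], [12, 8, 8, 11], [(0, 2), (0, 3), (1, 3), (2, 3), (3, 0), (3, 1), (3, 3)])]

/-- Trees for the positions 2010 1101 0210 0012. -/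
def t44_2 : List Entry := [
  ([3, 0, 0, 0], [11, 5, 1, 1], [(0, 1), (0, 3), (0, 0), (1, 2), (1, 0), (2, 0), (3, 0)]),
  ([2, 1, 0, 0], [2, 7, 9, 1], [(0, 1), (1, 1), (1, 2), (1, 0), (2, 3), (2, 0), (3, 0)]),
  ([2, 0, 1, 0], [15, 4, 1, 1], [(0, 1), (0, 3), (1, 2), (0, 2), (0, 0), (2, 0), (3, 0)]),
  ([2, 0, 0, 1], [10, 5, 9, 1], [(0, 1), (0, 3), (1, 2), (1, 0), (2, 3), (2, 0), (3, 0)]),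
  ([1, 2, 0, 0], [2, 6, 9, 3], [(0, 1), (1, 2), (1, 1), (2, 3), (2, 0), (3, 0), (3, 1)]),
  ([1, 1, 1, 0], [2, 4, 9, 7], [(0, 1), (1, 2), (2, 3), (2, 0), (3, 0), (3, 1), (3, 2)]),
  ([1, 1, 0, 1], [2, 15, 8, 1], [(0, 1), (1, 1), (1, 2), (2, 3), (1, 3), (1, 0), (3, 0)]),
  ([1, 0, 2, 0], [14, 4, 1, 5], [(0, 1), (0, 3), (0, 2), (1, 2), (2, 0), (3, 0), (3, 2)]),
  ([1, 0, 1, 1], [10, 4, 9, 5], [(0, 1), (0, 3), (1, 2), (2, 3), (2, 0), (3, 0), (3, 2)]),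
  ([1, 0, 0, 2], [10, 13, 8, 1], [(0, 1), (0, 3), (1, 2), (2, 3), (1, 3), (1, 0), (3, 0)]),
  ([0, 3, 0, 0], [2, 6, 11, 2], [(0, 1), (1, 2), (1, 1), (2, 0), (2, 3), (2, 1), (3, 1)]),
  ([0, 2, 1, 0], [2, 4, 15, 2], [(0, 1), (1, 2), (2, 0), (2, 2), (2, 3), (2, 1), (3, 1)]),
  ([0, 2, 0, 1], [2, 14, 8, 3], [(0, 1), (1, 2), (2, 3), (1, 3), (1, 1), (3, 0), (3, 1)]),
  ([0, 1, 2, 0], [2, 4, 13, 6], [(0, 1), (1, 2), (2, 0), (2, 3), (2, 2), (3, 1), (3, 2)]),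
  ([0, 1, 1, 1], [10, 4, 8, 7], [(1, 2), (2, 3), (0, 3), (0, 1), (3, 0), (3, 1), (3, 2)]),
  ([0, 1, 0, 2], [10, 12, 8, 3], [(1, 2), (1, 3), (2, 3), (0, 3), (0, 1), (3, 0), (3, 1)]),
  ([0, 0, 3, 0], [14, 4, 5, 4], [(0, 1), (0, 3), (0, 2), (1, 2), (2, 0), (2, 2), (3, 2)]),
  ([0, 0, 2, 1], [10, 4, 13, 4], [(0, 1), (0, 3), (1, 2), (2, 0), (2, 3), (2, 2), (3, 2)]),
  ([0, 0, 1, 2], [8, 4, 8, 15], [(0, 3), (1, 2), (2, 3), (3, 0), (3, 1), (3, 2), (3, 3)]),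
  ([0, 0, 0, 3], [8, 12, 8, 11], [(0, 3), (1, 2), (1, 3), (2, 3), (3, 0), (3, 1), (3, 3)])]

/-- Trees for the positions 2001 1110 0201 0021. -/
def t44_3 : List Entry := [
  ([3, 0, 0, 0], [7, 9, 1, 1], [(0, 1), (0, 2), (0, 0), (1, 3), (1, 0), (2, 0), (3, 0)]),
  ([2, 1, 0, 0], [2, 11, 5, 1], [(0, 1), (1, 1), (1, 3), (1, 0), (2, 2), (2, 0), (3, 0)]),
  ([2, 0, 1, 0], [6, 9, 5, 1], [(0, 1), (0, 2), (1, 3), (1, 0), (2, 2), (2, 0), (3, 0)]),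
  ([2, 0, 0, 1], [15, 8, 1, 1], [(0, 1), (0, 2), (1, 3), (0, 3), (0, 0), (2, 0), (3, 0)]),
  ([1, 2, 0, 0], [2, 10, 5, 3], [(0, 1), (1, 3), (1, 1), (2, 2), (2, 0), (3, 0), (3, 1)]),
  ([1, 1, 1, 0], [2, 15, 4, 1], [(0, 1), (1, 1), (1, 3), (2, 2), (1, 2), (1, 0), (3, 0)]),
  ([1, 1, 0, 1], [2, 8, 5, 11], [(0, 1), (1, 3), (2, 2), (2, 0), (3, 0), (3, 1), (3, 3)]),
  ([1, 0, 2, 0], [6, 13, 4, 1], [(0, 1), (0, 2), (1, 3), (2, 2), (1, 2), (1, 0), (3, 0)]),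
  ([1, 0, 1, 1], [14, 8, 5, 1], [(0, 1), (1, 3), (0, 3), (0, 2), (2, 2), (2, 0), (3, 0)]),
  ([1, 0, 0, 2], [10, 8, 5, 9], [(0, 1), (0, 3), (1, 3), (2, 2), (2, 0), (3, 0), (3, 3)]),
  ([0, 3, 0, 0], [2, 10, 7, 2], [(0, 1), (1, 3), (1, 1), (2, 0), (2, 2), (2, 1), (3, 1)]),
  ([0, 2, 1, 0], [2, 14, 4, 3], [(0, 1), (1, 3), (2, 2), (1, 2), (1, 1), (3, 0), (3, 1)]),
  ([0, 2, 0, 1], [2, 8, 15, 2], [(0, 1), (1, 3), (2, 0), (2, 2), (2, 3), (2, 1), (3, 1)]),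
  ([0, 1, 2, 0], [6, 12, 4, 3], [(1, 3), (1, 2), (2, 2), (0, 2), (0, 1), (3, 0), (3, 1)]),
  ([0, 1, 1, 1], [6, 8, 4, 11], [(1, 3), (2, 2), (0, 2), (0, 1), (3, 0), (3, 1), (3, 3)]),
  ([0, 1, 0, 2], [2, 8, 13, 10], [(0, 1), (1, 3), (2, 0), (2, 2), (2, 3), (3, 1), (3, 3)]),
  ([0, 0, 3, 0], [4, 12, 4, 7], [(0, 2), (1, 3), (1, 2), (2, 2), (3, 0), (3, 1), (3, 2)]),
  ([0, 0, 2, 1], [4, 8, 4, 15], [(0, 2), (1, 3), (2, 2), (3, 0), (3, 1), (3, 2), (3, 3)]),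
  ([0, 0, 1, 2], [14, 8, 4, 9], [(0, 1), (1, 3), (2, 2), (0, 2), (0, 3), (3, 0), (3, 3)]),
  ([0, 0, 0, 3], [10, 8, 13, 8], [(0, 1), (0, 3), (1, 3), (2, 0), (2, 2), (2, 3), (3, 3)])]

/-- Trees for the positions 2100 1011 0120 0102. -/
def t44_4 : List Entry := [
  ([3, 0, 0, 0], [13, 3, 1, 1], [(0, 2), (0, 3), (0, 0), (1, 1), (1, 0), (2, 0), (3, 0)]),
  ([2, 1, 0, 0], [15, 2, 1, 1], [(0, 2), (0, 3), (1, 1), (0, 1), (0, 0), (2, 0), (3, 0)]),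
  ([2, 0, 1, 0], [4, 7, 9, 1], [(0, 2), (1, 1), (1, 2), (1, 0), (2, 3), (2, 0), (3, 0)]),
  ([2, 0, 0, 1], [12, 3, 9, 1], [(0, 2), (0, 3), (1, 1), (1, 0), (2, 3), (2, 0), (3, 0)]),
  ([1, 2, 0, 0], [14, 2, 1, 3], [(0, 2), (0, 3), (0, 1), (1, 1), (2, 0), (3, 0), (3, 1)]),
  ([1, 1, 1, 0], [4, 2, 9, 7], [(0, 2), (1, 1), (2, 3), (2, 0), (3, 0), (3, 1), (3, 2)]),
  ([1, 1, 0, 1], [12, 2, 9, 3], [(0, 2), (0, 3), (1, 1), (2, 3), (2, 0), (3, 0), (3, 1)]),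
  ([1, 0, 2, 0], [4, 6, 9, 5], [(0, 2), (1, 1), (1, 2), (2, 3), (2, 0), (3, 0), (3, 2)]),
  ([1, 0, 1, 1], [4, 15, 8, 1], [(0, 2), (1, 1), (1, 2), (2, 3), (1, 3), (1, 0), (3, 0)]),
  ([1, 0, 0, 2], [12, 11, 8, 1], [(0, 2), (0, 3), (1, 1), (2, 3), (1, 3), (1, 0), (3, 0)]),
  ([0, 3, 0, 0], [14, 2, 3, 2], [(0, 2), (0, 3), (0, 1), (1, 1), (2, 0), (2, 1), (3, 1)]),
  ([0, 2, 1, 0], [4, 2, 11, 6], [(0, 2), (1, 1), (2, 0), (2, 3), (2, 1), (3, 1), (3, 2)]),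
  ([0, 2, 0, 1], [12, 2, 11, 2], [(0, 2), (0, 3), (1, 1), (2, 0), (2, 3), (2, 1), (3, 1)]),
  ([0, 1, 2, 0], [4, 2, 15, 4], [(0, 2), (1, 1), (2, 0), (2, 1), (2, 3), (2, 2), (3, 2)]),
  ([0, 1, 1, 1], [12, 2, 8, 7], [(1, 1), (2, 3), (0, 3), (0, 2), (3, 0), (3, 1), (3, 2)]),
  ([0, 1, 0, 2], [8, 2, 8, 15], [(0, 3), (1, 1), (2, 3), (3, 0), (3, 1), (3, 2), (3, 3)]),
  ([0, 0, 3, 0], [4, 6, 13, 4], [(0, 2), (1, 1), (1, 2), (2, 0), (2, 3), (2, 2), (3, 2)]),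
  ([0, 0, 2, 1], [4, 14, 8, 5], [(0, 2), (1, 1), (2, 3), (1, 3), (1, 2), (3, 0), (3, 2)]),
  ([0, 0, 1, 2], [12, 10, 8, 5], [(1, 1), (1, 3), (2, 3), (0, 3), (0, 2), (3, 0), (3, 2)]),
  ([0, 0, 0, 3], [8, 10, 8, 13], [(0, 3), (1, 1), (1, 3), (2, 3), (3, 0), (3, 2), (3, 3)])]

/-- Trees for the positions 2010 1020 0201 0102. -/
def t44_5 : List Entry := [
  ([3, 0, 0, 0], [11, 1, 5, 1], [(0, 1), (0, 3), (0, 0), (1, 0), (2, 2), (2, 0), (3, 0)]),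
  ([2, 1, 0, 0], [2, 11, 5, 1], [(0, 1), (1, 1), (1, 3), (1, 0), (2, 2), (2, 0), (3, 0)]),
  ([2, 0, 1, 0], [15, 1, 4, 1], [(0, 1), (0, 3), (1, 0), (2, 2), (0, 2), (0, 0), (3, 0)]),
  ([2, 0, 0, 1], [10, 9, 5, 1], [(0, 1), (0, 3), (1, 3), (1, 0), (2, 2), (2, 0), (3, 0)]),
  ([1, 2, 0, 0], [2, 10, 5, 3], [(0, 1), (1, 3), (1, 1), (2, 2), (2, 0), (3, 0), (3, 1)]),
  ([1, 1, 1, 0], [6, 11, 4, 1], [(1, 3), (2, 2), (0, 2), (0, 1), (1, 1), (1, 0), (3, 0)]),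
  ([1, 1, 0, 1], [2, 8, 13, 3], [(0, 1), (1, 3), (2, 2), (2, 3), (2, 0), (3, 0), (3, 1)]),
  ([1, 0, 2, 0], [4, 15, 4, 1], [(0, 2), (1, 1), (1, 3), (2, 2), (1, 2), (1, 0), (3, 0)]),
  ([1, 0, 1, 1], [14, 9, 4, 1], [(0, 1), (2, 2), (0, 2), (0, 3), (1, 3), (1, 0), (3, 0)]),
  ([1, 0, 0, 2], [10, 8, 13, 1], [(0, 1), (0, 3), (1, 3), (2, 2), (2, 3), (2, 0), (3, 0)]),
  ([0, 3, 0, 0], [2, 10, 7, 2], [(0, 1), (1, 3), (1, 1), (2, 0), (2, 2), (2, 1), (3, 1)]),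
  ([0, 2, 1, 0], [2, 10, 4, 7], [(0, 1), (1, 3), (1, 1), (2, 2), (3, 0), (3, 1), (3, 2)]),
  ([0, 2, 0, 1], [2, 8, 15, 2], [(0, 1), (1, 3), (2, 0), (2, 2), (2, 3), (2, 1), (3, 1)]),
  ([0, 1, 2, 0], [6, 10, 4, 5], [(1, 3), (1, 1), (0, 1), (0, 2), (2, 2), (3, 0), (3, 2)]),
  ([0, 1, 1, 1], [2, 8, 12, 7], [(0, 1), (1, 3), (2, 3), (2, 2), (3, 0), (3, 1), (3, 2)]),
  ([0, 1, 0, 2], [2, 8, 8, 15], [(0, 1), (1, 3), (2, 3), (3, 0), (3, 1), (3, 2), (3, 3)]),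
  ([0, 0, 3, 0], [4, 14, 4, 5], [(0, 2), (1, 1), (1, 3), (1, 2), (2, 2), (3, 0), (3, 2)]),
  ([0, 0, 2, 1], [14, 8, 4, 5], [(0, 1), (1, 3), (0, 3), (0, 2), (2, 2), (3, 0), (3, 2)]),
  ([0, 0, 1, 2], [10, 8, 12, 5], [(0, 1), (0, 3), (1, 3), (2, 3), (2, 2), (3, 0), (3, 2)]),
  ([0, 0, 0, 3], [10, 8, 8, 13], [(0, 1), (0, 3), (1, 3), (2, 3), (3, 0), (3, 2), (3, 3)])]

/-- Trees for the positions 1200 1020 1002 0111. -/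
def t44_6 : List Entry := [
  ([3, 0, 0, 0], [13, 3, 1, 1], [(0, 2), (0, 3), (0, 0), (1, 1), (1, 0), (2, 0), (3, 0)]),
  ([2, 1, 0, 0], [13, 2, 3, 1], [(0, 2), (0, 3), (0, 0), (1, 1), (2, 1), (2, 0), (3, 0)]),
  ([2, 0, 1, 0], [4, 11, 5, 1], [(0, 2), (1, 1), (1, 3), (1, 0), (2, 2), (2, 0), (3, 0)]),
  ([2, 0, 0, 1], [12, 11, 1, 1], [(0, 2), (0, 3), (1, 1), (1, 3), (1, 0), (2, 0), (3, 0)]),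
  ([1, 2, 0, 0], [15, 2, 2, 1], [(0, 2), (0, 3), (1, 1), (2, 1), (0, 1), (0, 0), (3, 0)]),
  ([1, 1, 1, 0], [4, 10, 7, 1], [(0, 2), (1, 3), (1, 1), (2, 1), (2, 2), (2, 0), (3, 0)]),
  ([1, 1, 0, 1], [12, 10, 3, 1], [(0, 2), (0, 3), (1, 3), (1, 1), (2, 1), (2, 0), (3, 0)]),
  ([1, 0, 2, 0], [4, 15, 4, 1], [(0, 2), (1, 1), (1, 3), (2, 2), (1, 2), (1, 0), (3, 0)]),
  ([1, 0, 1, 1], [12, 8, 7, 1], [(1, 3), (0, 3), (0, 2), (2, 1), (2, 2), (2, 0), (3, 0)]),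
  ([1, 0, 0, 2], [8, 8, 15, 1], [(0, 3), (1, 3), (2, 1), (2, 2), (2, 3), (2, 0), (3, 0)]),
  ([0, 3, 0, 0], [14, 2, 2, 3], [(0, 2), (0, 3), (0, 1), (1, 1), (2, 1), (3, 0), (3, 1)]),
  ([0, 2, 1, 0], [4, 10, 2, 7], [(0, 2), (1, 3), (1, 1), (2, 1), (3, 0), (3, 1), (3, 2)]),
  ([0, 2, 0, 1], [12, 10, 2, 3], [(0, 2), (0, 3), (1, 3), (1, 1), (2, 1), (3, 0), (3, 1)]),
  ([0, 1, 2, 0], [4, 10, 6, 5], [(0, 2), (1, 3), (1, 1), (2, 1), (2, 2), (3, 0), (3, 2)]),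
  ([0, 1, 1, 1], [4, 8, 2, 15], [(0, 2), (1, 3), (2, 1), (3, 0), (3, 1), (3, 2), (3, 3)]),
  ([0, 1, 0, 2], [12, 8, 2, 11], [(0, 2), (0, 3), (1, 3), (2, 1), (3, 0), (3, 1), (3, 3)]),
  ([0, 0, 3, 0], [4, 14, 4, 5], [(0, 2), (1, 1), (1, 3), (1, 2), (2, 2), (3, 0), (3, 2)]),
  ([0, 0, 2, 1], [4, 8, 6, 13], [(0, 2), (1, 3), (2, 1), (2, 2), (3, 0), (3, 2), (3, 3)]),
  ([0, 0, 1, 2], [12, 8, 6, 9], [(1, 3), (2, 1), (2, 2), (0, 2), (0, 3), (3, 0), (3, 3)]),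
  ([0, 0, 0, 3], [8, 8, 14, 9], [(0, 3), (1, 3), (2, 1), (2, 2), (2, 3), (3, 0), (3, 3)])]

/-- Trees for the positions 1110 1101 1011 0111. -/
def t44_7 : List Entry := [
  ([3, 0, 0, 0], [9, 5, 3, 1], [(0, 3), (0, 0), (1, 2), (1, 0), (2, 1), (2, 0), (3, 0)]),
  ([2, 1, 0, 0], [9, 7, 2, 1], [(0, 3), (0, 0), (1, 2), (2, 1), (1, 1), (1, 0), (3, 0)]),
  ([2, 0, 1, 0], [13, 4, 3, 1], [(0, 3), (1, 2), (0, 2), (0, 0), (2, 1), (2, 0), (3, 0)]),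
  ([2, 0, 0, 1], [8, 13, 3, 1], [(0, 3), (1, 2), (1, 3), (1, 0), (2, 1), (2, 0), (3, 0)]),
  ([1, 2, 0, 0], [11, 6, 2, 1], [(0, 3), (1, 2), (1, 1), (2, 1), (0, 1), (0, 0), (3, 0)]),
  ([1, 1, 1, 0], [15, 4, 2, 1], [(0, 3), (1, 2), (0, 2), (2, 1), (0, 1), (0, 0), (3, 0)]),
  ([1, 1, 0, 1], [8, 15, 2, 1], [(0, 3), (1, 2), (1, 3), (2, 1), (1, 1), (1, 0), (3, 0)]),
  ([1, 0, 2, 0], [12, 4, 7, 1], [(0, 3), (0, 2), (1, 2), (2, 1), (2, 2), (2, 0), (3, 0)]),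
  ([1, 0, 1, 1], [8, 4, 15, 1], [(0, 3), (1, 2), (2, 1), (2, 2), (2, 3), (2, 0), (3, 0)]),
  ([1, 0, 0, 2], [8, 12, 11, 1], [(0, 3), (1, 2), (1, 3), (2, 1), (2, 3), (2, 0), (3, 0)]),
  ([0, 3, 0, 0], [10, 6, 2, 3], [(0, 3), (0, 1), (1, 2), (1, 1), (2, 1), (3, 0), (3, 1)]),
  ([0, 2, 1, 0], [14, 4, 2, 3], [(0, 3), (1, 2), (0, 2), (0, 1), (2, 1), (3, 0), (3, 1)]),
  ([0, 2, 0, 1], [8, 6, 2, 11], [(0, 3), (1, 2), (1, 1), (2, 1), (3, 0), (3, 1), (3, 3)]),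
  ([0, 1, 2, 0], [12, 4, 2, 7], [(0, 3), (0, 2), (1, 2), (2, 1), (3, 0), (3, 1), (3, 2)]),
  ([0, 1, 1, 1], [8, 4, 2, 15], [(0, 3), (1, 2), (2, 1), (3, 0), (3, 1), (3, 2), (3, 3)]),
  ([0, 1, 0, 2], [8, 14, 2, 9], [(0, 3), (1, 2), (2, 1), (1, 1), (1, 3), (3, 0), (3, 3)]),
  ([0, 0, 3, 0], [12, 4, 6, 5], [(0, 3), (0, 2), (1, 2), (2, 1), (2, 2), (3, 0), (3, 2)]),
  ([0, 0, 2, 1], [8, 4, 14, 5], [(0, 3), (1, 2), (2, 1), (2, 3), (2, 2), (3, 0), (3, 2)]),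
  ([0, 0, 1, 2], [8, 4, 10, 13], [(0, 3), (1, 2), (2, 1), (2, 3), (3, 0), (3, 2), (3, 3)]),
  ([0, 0, 0, 3], [8, 12, 10, 9], [(0, 3), (1, 2), (1, 3), (2, 1), (2, 3), (3, 0), (3, 3)])]

/-- Trees for the positions 2001 1002 0210 0120. -/
def t44_8 : List Entry := [
  ([3, 0, 0, 0], [7, 1, 9, 1], [(0, 1), (0, 2), (0, 0), (1, 0), (2, 3), (2, 0), (3, 0)]),
  ([2, 1, 0, 0], [2, 7, 9, 1], [(0, 1), (1, 1), (1, 2), (1, 0), (2, 3), (2, 0), (3, 0)]),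
  ([2, 0, 1, 0], [6, 5, 9, 1], [(0, 1), (0, 2), (1, 2), (1, 0), (2, 3), (2, 0), (3, 0)]),
  ([2, 0, 0, 1], [15, 1, 8, 1], [(0, 1), (0, 2), (1, 0), (2, 3), (0, 3), (0, 0), (3, 0)]),
  ([1, 2, 0, 0], [2, 6, 9, 3], [(0, 1), (1, 2), (1, 1), (2, 3), (2, 0), (3, 0), (3, 1)]),
  ([1, 1, 1, 0], [2, 4, 13, 3], [(0, 1), (1, 2), (2, 2), (2, 3), (2, 0), (3, 0), (3, 1)]),
  ([1, 1, 0, 1], [10, 7, 8, 1], [(1, 2), (2, 3), (0, 3), (0, 1), (1, 1), (1, 0), (3, 0)]),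
  ([1, 0, 2, 0], [6, 4, 13, 1], [(0, 1), (0, 2), (1, 2), (2, 2), (2, 3), (2, 0), (3, 0)]),
  ([1, 0, 1, 1], [14, 5, 8, 1], [(0, 1), (2, 3), (0, 3), (0, 2), (1, 2), (1, 0), (3, 0)]),
  ([1, 0, 0, 2], [8, 15, 8, 1], [(0, 3), (1, 1), (1, 2), (2, 3), (1, 3), (1, 0), (3, 0)]),
  ([0, 3, 0, 0], [2, 6, 11, 2], [(0, 1), (1, 2), (1, 1), (2, 0), (2, 3), (2, 1), (3, 1)]),
  ([0, 2, 1, 0], [2, 4, 15, 2], [(0, 1), (1, 2), (2, 0), (2, 2), (2, 3), (2, 1), (3, 1)]),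
  ([0, 2, 0, 1], [2, 6, 8, 11], [(0, 1), (1, 2), (1, 1), (2, 3), (3, 0), (3, 1), (3, 3)]),
  ([0, 1, 2, 0], [2, 4, 4, 15], [(0, 1), (1, 2), (2, 2), (3, 0), (3, 1), (3, 2), (3, 3)]),
  ([0, 1, 1, 1], [2, 4, 12, 11], [(0, 1), (1, 2), (2, 2), (2, 3), (3, 0), (3, 1), (3, 3)]),
  ([0, 1, 0, 2], [10, 6, 8, 9], [(1, 2), (1, 1), (0, 1), (0, 3), (2, 3), (3, 0), (3, 3)]),
  ([0, 0, 3, 0], [6, 4, 4, 13], [(0, 1), (0, 2), (1, 2), (2, 2), (3, 0), (3, 2), (3, 3)]),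
  ([0, 0, 2, 1], [6, 4, 12, 9], [(0, 1), (0, 2), (1, 2), (2, 2), (2, 3), (3, 0), (3, 3)]),
  ([0, 0, 1, 2], [14, 4, 8, 9], [(0, 1), (1, 2), (0, 2), (0, 3), (2, 3), (3, 0), (3, 3)]),
  ([0, 0, 0, 3], [8, 14, 8, 9], [(0, 3), (1, 1), (1, 2), (1, 3), (2, 3), (3, 0), (3, 3)])]

def t44_All : List (List Entry) := [t44_0, t44_1, t44_2, t44_3, t44_4, t44_5, t44_6, t44_7, t44_8]

theorem certs44 : (t44_All.all (certB 4 4)) = true := by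
  decide +kernel

end Helper50.SO
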