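import Pool.Agent.Helper50.SO.Perm
import Pool.Agent.Helper50.SO.Tab44
import Pool.Agent.Helper50.SO.Step

set_option autoImplicit false

/-! The spread-out families of four positions with four colours. -/

namespace Helper50.SO

open Helper13.TS (SpreadOut)
open Pool.Agent.Helper28.SO (TreeFam TRealized mergeV sum_mergeV)

/-- The test for one family. -/
def f44 (L : List (List ℕ)) : Bool :=
  mergeAnyB 4 3 L || t44_All.any (fun t => holesB 4 4 t L)

theorem enum44 : enum 4 f44 4 (comps 4 3) [] [] = true := by
  decide +kernel

theorem nodup_comps44 : (comps 4 3).Nodup := by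
  decide +kernel

theorem q44 (v : Fin 4 → Fin 4 → ℕ) (hv : ∀ k, ∑ c, v k c = 3) (hs : SpreadOut 4 v) :
    TRealized 4 4 v := by
  have hinj : Function.Injective v := hs.injective hv
  obtain ⟨π, L, hL, hlen, hrows⟩ := exists_perm_sublist hinj nodup_comps44 (by
    intro i
    exact mem_comps (by simp) (by rw [List.sum_ofFn, hv]))
  have hs' : SpreadOut 4 (fun k => v (π k)) := SpreadOut.label hs π
  have h1 := soB_of_spreadOut hs'
  rw [hrows] at h1
  have h2 := enum_spec (comps 4 3) 4 [] enum44 L hL hlen (by rw [List.append_nil]; exact h1)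
  rw [List.append_nil, ← hrows] at h2
  have h3 : TRealized 4 4 (fun k => v (π k)) := by
    unfold f44 at h2
    rw [Bool.or_eq_true] at h2
    rcases h2 with h2 | h2
    · obtain ⟨z, s, h⟩ := of_mergeAnyB h2
      refine TRealized.merge (by norm_num) (by norm_num) z s _ ?_
      exact tRealized_three (by norm_num) _ (fun k => (sum_mergeV z s _).trans (hv _)) h
    · rw [List.any_eq_true] at h2
      obtain ⟨t, ht, h⟩ := h2
      have h4 := certs44
      rw [List.all_eq_true] at h4
      exact tRealized_of_certB (h4 t ht) h
  have h5 := TRealized.label h3 π.symm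
  have h6 : (fun k => (fun k => v (π k)) (π.symm k)) = v := by
    funext k
    simp
  rw [h6] at h5
  exact h5

end Helper50.SO
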