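import Pool.Agent.Helper50.SO.Check

set_option autoImplicit false

/-! Certificates for compatible families of trees. -/

namespace Helper50.SO

open Pool.Agent.Helper28.SO (TreeFam TRealized)

variable {n d : ℕ}

/-! ### Forests -/

/-- Only the zero function with zero marginals is supported on `A`. -/
def IsForest (A : Fin n → Finset (Fin d)) : Prop :=
  ∀ h : Fin n → Fin d → ℝ, (∀ i c, c ∉ A i → h i c = 0) → (∀ i, ∑ c, h i c = 0) →
    (∀ c, ∑ i, h i c = 0) → ∀ i c, h i c = 0

/-- A leaf order of a list of edges. -/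
def leafB : List (ℕ × ℕ) → Bool
  | [] => true
  | e :: L => (L.all (fun e' => e'.1 != e.1) || L.all (fun e' => e'.2 != e.2)) && leafB L

theorem zero_of_leafB {h : Fin n → Fin d → ℝ} (h1 : ∀ i, ∑ c, h i c = 0)
    (h2 : ∀ c, ∑ i, h i c = 0) : ∀ L : List (ℕ × ℕ), leafB L = true →
      (∀ (i : Fin n) (c : Fin d), (i.1, c.1) ∉ L → h i c = 0) → ∀ i c, h i c = 0 := by
  intro L
  induction L with
  | nil => intro _ h3 i c; exact h3 i c (by simp)
  | cons e L ih =>
    intro hL h3
    rw [leafB, Bool.and_eq_true, Bool.or_eq_true, List.all_eq_true, List.all_eq_true] at hL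
    refine ih hL.2 ?_
    intro i c hic
    by_cases he : (i.1, c.1) = e
    · subst he
      rcases hL.1 with hr | hc
      · rw [← h1 i, Finset.sum_eq_single c]
        · intro c' _ hne
          apply h3
          rw [List.mem_cons, not_or]
          refine ⟨?_, fun hm => ?_⟩
          · intro he'
            exact hne (Fin.ext (Prod.ext_iff.1 he').2)
          · have := hr _ hm
            simp at this
        · intro h
          exact absurd (Finset.mem_univ c) h
      · rw [← h2 c, Finset.sum_eq_single i]
        · intro i' _ hne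
          apply h3
          rw [List.mem_cons, not_or]
          refine ⟨?_, fun hm => ?_⟩
          · intro he'
            exact hne (Fin.ext (Prod.ext_iff.1 he').1)
          · have := hc _ hm
            simp at this
        · intro h
          exact absurd (Finset.mem_univ i) h
    · exact h3 i c (by
        rw [List.mem_cons, not_or]
        exact ⟨he, hic⟩)

/-! ### Potentials -/

theorem compat_of_pot {A B : Fin n → Finset (Fin d)} (hA : IsForest A) (α : Fin n → ℕ)
    (β : Fin d → ℕ) (h1 : ∀ i c, c ∈ A i → c ∉ B i → α i < β c)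
    (h2 : ∀ i c, c ∉ A i → c ∈ B i → β c < α i) (h3 : ∀ i c, c ∈ A i → c ∈ B i → α i = β c)
    (g g' : Fin n → Fin d → ℝ) (hg : ∀ i c, 0 ≤ g i c) (hg' : ∀ i c, 0 ≤ g' i c)
    (hgA : ∀ i c, c ∉ A i → g i c = 0) (hgB : ∀ i c, c ∉ B i → g' i c = 0)
    (hr : ∀ i, ∑ c, g i c = ∑ c, g' i c) (hc : ∀ c, ∑ i, g i c = ∑ i, g' i c) : g = g' := by
  classical
  have hr' : ∀ i, ∑ c, (g i c - g' i c) = 0 := by
    intro i
    rw [Finset.sum_sub_distrib, hr, sub_self]
  have hc' : ∀ c, ∑ i, (g i c - g' i c) = 0 := by
    intro c
    rw [Finset.sum_sub_distrib, hc, sub_self]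
  have hsum : ∑ i, ∑ c, (g i c - g' i c) * ((β c : ℝ) - α i) = 0 := by
    have e1 : ∑ i, ∑ c, (g i c - g' i c) * ((β c : ℝ) - α i) =
        ∑ i, ∑ c, (g i c - g' i c) * (β c : ℝ) - ∑ i, ∑ c, (g i c - g' i c) * (α i : ℝ) := by
      rw [← Finset.sum_sub_distrib]
      refine Finset.sum_congr rfl fun i _ => ?_
      rw [← Finset.sum_sub_distrib]
      exact Finset.sum_congr rfl fun c _ => by ring
    rw [e1, Finset.sum_comm]
    have e2 : ∑ c, ∑ i, (g i c - g' i c) * (β c : ℝ) = 0 := by
      refine Finset.sum_eq_zero fun c _ => ?_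
      rw [← Finset.sum_mul, hc' c, zero_mul]
    have e3 : ∑ i, ∑ c, (g i c - g' i c) * (α i : ℝ) = 0 := by
      refine Finset.sum_eq_zero fun i _ => ?_
      rw [← Finset.sum_mul, hr' i, zero_mul]
    rw [e2, e3, sub_zero]
  have hnn : ∀ i c, 0 ≤ (g i c - g' i c) * ((β c : ℝ) - α i) := by
    intro i c
    by_cases ha : c ∈ A i
    · by_cases hb : c ∈ B i
      · rw [h3 i c ha hb, sub_self, mul_zero]
      · rw [hgB i c hb, sub_zero]
        have : (α i : ℝ) < β c := by exact_mod_cast h1 i c ha hb
        exact mul_nonneg (hg i c) (by linarith)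
    · rw [hgA i c ha, zero_sub]
      by_cases hb : c ∈ B i
      · have : (β c : ℝ) < α i := by exact_mod_cast h2 i c ha hb
        have := hg' i c
        nlinarith
      · rw [hgB i c hb, neg_zero, zero_mul]
  have hz : ∀ i c, (g i c - g' i c) * ((β c : ℝ) - α i) = 0 := by
    intro i c
    have h4 := (Finset.sum_eq_zero_iff_of_nonneg fun i _ =>
      Finset.sum_nonneg fun c _ => hnn i c).1 hsum i (Finset.mem_univ i)
    exact (Finset.sum_eq_zero_iff_of_nonneg fun c _ => hnn i c).1 h4 c (Finset.mem_univ c)
  have hsupp : ∀ i c, c ∉ A i → g i c - g' i c = 0 := by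
    intro i c ha
    by_cases hb : c ∈ B i
    · rcases mul_eq_zero.1 (hz i c) with h | h
      · exact h
      · have : (β c : ℝ) < α i := by exact_mod_cast h2 i c ha hb
        linarith
    · rw [hgA i c ha, hgB i c hb, sub_self]
  have h5 := hA (fun i c => g i c - g' i c) hsupp hr' hc'
  funext i c
  exact sub_eq_zero.1 (h5 i c)

/-! ### The test -/

/-- The colours of a mask. -/
def maskSet (d a : ℕ) : Finset (Fin d) := Finset.univ.filter (fun c => Nat.testBit a c.1)

theorem mem_maskSet {a : ℕ} {c : Fin d} : c ∈ maskSet d a ↔ Nat.testBit a c.1 = true := by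
  simp [maskSet]

/-- An entry of the table: position, row masks, edges in a leaf order. -/
abbrev Entry : Type := List ℕ × List ℕ × List (ℕ × ℕ)

/-- The masks at the position `r`. -/
def lk (tab : List Entry) (r : List ℕ) : List ℕ :=
  match tab.find? (fun p => p.1 == r) with
  | some p => p.2.1
  | none => []

/-- The family of trees of a table. -/
def famOf (tab : List Entry) (v : Fin d → ℕ) (i : Fin n) : Finset (Fin d) :=
  maskSet d ((lk tab (List.ofFn v)).getD i.1 0)

/-- Degrees and forest test for one entry. -/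
def entryB (n d : ℕ) (p : Entry) : Bool :=
  ((List.range d).all fun c =>
    ((List.range n).filter fun i => Nat.testBit (p.2.1.getD i 0) c).length ==
      p.1.getD c 0 + 1) &&
  leafB p.2.2 &&
  ((List.range n).all fun i => (List.range d).all fun c =>
    !(Nat.testBit (p.2.1.getD i 0) c) || p.2.2.contains (i, c))

/-- One relaxation round: rows from columns. -/
def relaxRow (d : ℕ) (β : List ℕ) (a b x : ℕ) : ℕ :=
  (List.range d).foldl (fun y c =>
    if Nat.testBit b c then max y (β.getD c 0 + if Nat.testBit a c then 0 else 1) else y) x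

/-- One relaxation round: a column from the rows. -/
def relaxCol (c : ℕ) (as bs α : List ℕ) (x : ℕ) : ℕ :=
  match as, bs, α with
  | a :: as, b :: bs, y :: α =>
    relaxCol c as bs α (if Nat.testBit a c then
      max x (y + if Nat.testBit b c then 0 else 1) else x)
  | _, _, _ => x

def relax (d : ℕ) (as bs : List ℕ) (s : List ℕ × List ℕ) : List ℕ × List ℕ :=
  let α := (List.zip (List.zip as bs) s.1).map fun q => relaxRow d s.2 q.1.1 q.1.2 q.2
  (α, (List.range d).map fun c => relaxCol c as bs α (s.2.getD c 0))

def iter (d : ℕ) (as bs : List ℕ) : ℕ → List ℕ × List ℕ → List ℕ × List ℕ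
  | 0, s => s
  | k + 1, s =>
    let t := relax d as bs s
    if t == s then s else iter d as bs k t

/-- The potential test for two rows. -/
def rowB (d : ℕ) (β : List ℕ) (a b x : ℕ) : Bool :=
  (List.range d).all fun c =>
    if Nat.testBit a c then
      (if Nat.testBit b c then x == β.getD c 0 else Nat.blt x (β.getD c 0))
    else (if Nat.testBit b c then Nat.blt (β.getD c 0) x else true)

/-- The test for two entries with given potentials. -/
def pairB (n d : ℕ) (as bs : List ℕ) (s : List ℕ × List ℕ) : Bool :=
  (List.range n).all fun i => rowB d s.2 (as.getD i 0) (bs.getD i 0) (s.1.getD i 0)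

/-- The test for two entries. -/
def okB (n d : ℕ) (p q : Entry) : Bool :=
  pairB n d p.2.1 q.2.1
    (iter d p.2.1 q.2.1 (n + d) (List.replicate n 0, List.replicate d 0))

def pairsB (n d : ℕ) : List Entry → Bool
  | [] => true
  | p :: L => L.all (okB n d p) && pairsB n d L

/-- All the vectors with `d` entries and sum `t`. -/
def comps : ℕ → ℕ → List (List ℕ)
  | 0, 0 => [[]]
  | 0, _ + 1 => []
  | d + 1, t => (List.range (t + 1)).flatMap fun a => (comps d (t - a)).map (a :: ·)

theorem mem_comps : ∀ {d t : ℕ} {r : List ℕ}, r.length = d → r.sum = t → r ∈ comps d t := by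
  intro d
  induction d with
  | zero =>
    intro t r h1 h2
    rw [List.length_eq_zero_iff] at h1
    subst h1
    simp at h2
    subst h2
    simp [comps]
  | succ d ih =>
    intro t r h1 h2
    cases r with
    | nil => simp at h1
    | cons a r =>
      simp only [List.length_cons, Nat.add_right_cancel_iff, List.sum_cons] at h1 h2
      simp only [comps, List.mem_flatMap, List.mem_range, List.mem_map]
      exact ⟨a, by omega, r, ih h1 (by omega), rfl⟩

/-- The complete test. -/
def certB (n d : ℕ) (tab : List Entry) : Bool :=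
  ((comps d (n - 1)).all fun r => tab.any fun p => p.1 == r) &&
  (tab.all (entryB n d)) && pairsB n d tab

theorem forest_of_entryB {p : Entry} (h : entryB n d p = true) :
    IsForest (fun i : Fin n => maskSet d (p.2.1.getD i.1 0)) := by
  unfold entryB at h
  rw [Bool.and_eq_true, Bool.and_eq_true] at h
  obtain ⟨⟨-, h2⟩, h3⟩ := h
  intro f hf hr hc
  refine zero_of_leafB hr hc p.2.2 h2 ?_
  intro i c hic
  apply hf
  rw [mem_maskSet]
  intro hb
  rw [List.all_eq_true] at h3
  have h4 := h3 i.1 (List.mem_range.2 i.2)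
  rw [List.all_eq_true] at h4
  have h5 := h4 c.1 (List.mem_range.2 c.2)
  rw [hb] at h5
  apply hic
  simpa using h5

theorem filter_range_length (n : ℕ) (p : ℕ → Bool) :
    ((List.range n).filter p).length = (Finset.univ.filter (fun i : Fin n => p i.1 = true)).card := by
  classical
  have h1 : List.range n = (List.finRange n).map Fin.val := by
    apply List.ext_getElem
    · simp
    · intro i h1 h2
      simp
  rw [h1, List.filter_map, List.length_map,
    ← List.toFinset_card_of_nodup ((List.nodup_finRange n).filter _)]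
  congr 1
  ext i
  simp

theorem pairsB_iff {tab : List Entry} (h : pairsB n d tab = true) {p q : Entry} (hp : p ∈ tab)
    (hq : q ∈ tab) (hpq : p ≠ q) : okB n d p q = true ∨ okB n d q p = true := by
  induction tab with
  | nil => simp at hp
  | cons r L ih =>
    rw [pairsB, Bool.and_eq_true, List.all_eq_true] at h
    rcases List.mem_cons.1 hp with hp' | hp'
    · rcases List.mem_cons.1 hq with hq' | hq'
      · exact absurd (hp'.trans hq'.symm) hpq
      · rw [hp']
        exact Or.inl (h.1 q hq')
    · rcases List.mem_cons.1 hq with hq' | hq'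
      · rw [hq']
        exact Or.inr (h.1 p hp')
      · exact ih h.2 hp' hq'

/-- The row sets of an entry. -/
def rowSet (n d : ℕ) (p : Entry) (i : Fin n) : Finset (Fin d) := maskSet d (p.2.1.getD i.1 0)

theorem compat_of_okB {p q : Entry} (hp : entryB n d p = true) (h : okB n d p q = true)
    (g g' : Fin n → Fin d → ℝ) (hg : ∀ i c, 0 ≤ g i c) (hg' : ∀ i c, 0 ≤ g' i c)
    (hgA : ∀ i c, c ∉ rowSet n d p i → g i c = 0) (hgB : ∀ i c, c ∉ rowSet n d q i → g' i c = 0)
    (hr : ∀ i, ∑ c, g i c = ∑ c, g' i c) (hc : ∀ c, ∑ i, g i c = ∑ i, g' i c) : g = g' := by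
  unfold okB at h
  generalize iter d p.2.1 q.2.1 (n + d) (List.replicate n 0, List.replicate d 0) = s at h
  unfold pairB at h
  rw [List.all_eq_true] at h
  have key : ∀ (i : Fin n) (c : Fin d),
      (if Nat.testBit (p.2.1.getD i.1 0) c.1 then
        (if Nat.testBit (q.2.1.getD i.1 0) c.1 then s.1.getD i.1 0 == s.2.getD c.1 0
          else Nat.blt (s.1.getD i.1 0) (s.2.getD c.1 0))
      else (if Nat.testBit (q.2.1.getD i.1 0) c.1 then Nat.blt (s.2.getD c.1 0) (s.1.getD i.1 0)
          else true)) = true := by
    intro i c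
    have h1 := h i.1 (List.mem_range.2 i.2)
    unfold rowB at h1
    rw [List.all_eq_true] at h1
    exact h1 c.1 (List.mem_range.2 c.2)
  refine compat_of_pot (forest_of_entryB hp) (fun i => s.1.getD i.1 0) (fun c => s.2.getD c.1 0)
    ?_ ?_ ?_ g g' hg hg' hgA hgB hr hc
  · intro i c ha hb
    have h1 := key i c
    rw [mem_maskSet] at ha
    unfold rowSet at hb
    rw [mem_maskSet, Bool.not_eq_true] at hb
    rw [if_pos ha, if_neg (by rw [hb]; simp)] at h1
    simpa [Nat.blt] using h1
  · intro i c ha hb
    have h1 := key i c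
    rw [mem_maskSet, Bool.not_eq_true] at ha
    unfold rowSet at hb
    rw [mem_maskSet] at hb
    rw [if_neg (by rw [ha]; simp), if_pos hb] at h1
    simpa [Nat.blt] using h1
  · intro i c ha hb
    have h1 := key i c
    rw [mem_maskSet] at ha
    unfold rowSet at hb
    rw [mem_maskSet] at hb
    rw [if_pos ha, if_pos hb] at h1
    simpa using h1

/-- **Soundness of the test.** -/
theorem treeFam_of_certB {tab : List Entry} (h : certB n d tab = true) :
    TreeFam n d (famOf tab) := by
  classical
  unfold certB at h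
  rw [Bool.and_eq_true, Bool.and_eq_true, List.all_eq_true, List.all_eq_true] at h
  obtain ⟨⟨h1, h2⟩, h3⟩ := h
  have hlk : ∀ v : Fin d → ℕ, ∑ c, v c = n - 1 → ∃ p ∈ tab, p.1 = List.ofFn v ∧
      lk tab (List.ofFn v) = p.2.1 := by
    intro v hv
    have hm : List.ofFn v ∈ comps d (n - 1) := mem_comps (by simp) (by rw [List.sum_ofFn, hv])
    have h4 := h1 _ hm
    rw [List.any_eq_true] at h4
    obtain ⟨p, hp, hpv⟩ := h4
    have h5 : (tab.find? (fun p => p.1 == List.ofFn v)).isSome := by
      rw [List.find?_isSome]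
      exact ⟨p, hp, hpv⟩
    obtain ⟨q, hq⟩ := Option.isSome_iff_exists.1 h5
    refine ⟨q, List.mem_of_find?_eq_some hq, ?_, ?_⟩
    · have := List.find?_some hq
      simpa using this
    · unfold lk
      rw [hq]
  have hfam : ∀ v : Fin d → ℕ, ∑ c, v c = n - 1 → ∃ p ∈ tab, p.1 = List.ofFn v ∧
      (famOf tab v : Fin n → Finset (Fin d)) = rowSet n d p := by
    intro v hv
    obtain ⟨p, hp, h4, h5⟩ := hlk v hv
    refine ⟨p, hp, h4, ?_⟩
    funext i
    unfold famOf rowSet
    rw [h5]
  constructor
  · intro v hv c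
    obtain ⟨p, hp, h4, h5⟩ := hfam v hv
    rw [h5]
    have h6 := h2 p hp
    unfold entryB at h6
    rw [Bool.and_eq_true, Bool.and_eq_true, List.all_eq_true] at h6
    have h7 := h6.1.1 c.1 (List.mem_range.2 c.2)
    rw [beq_iff_eq, filter_range_length, h4] at h7
    have h8 : (List.ofFn v).getD c.1 0 = v c := by
      simp [List.getD_eq_getElem?_getD]
    rw [h8] at h7
    rw [← h7]
    congr 1
    ext i
    simp [rowSet, mem_maskSet]
  · intro v w hv hw g g' hg hg' hgA hgB hr hc
    obtain ⟨p, hp, -, h5⟩ := hfam v hv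
    obtain ⟨q, hq, -, h6⟩ := hfam w hw
    rw [h5] at hgA
    rw [h6] at hgB
    by_cases hpq : p = q
    · subst hpq
      have h7 := forest_of_entryB (h2 p hp) (fun i c => g i c - g' i c) (by
        intro i c hic
        show g i c - g' i c = 0
        rw [hgA i c hic, hgB i c hic, sub_zero]) (by
        intro i
        show ∑ c, (g i c - g' i c) = 0
        rw [Finset.sum_sub_distrib, hr, sub_self]) (by
        intro c
        show ∑ i, (g i c - g' i c) = 0
        rw [Finset.sum_sub_distrib, hc, sub_self])
      funext i c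
      exact sub_eq_zero.1 (h7 i c)
    · rcases pairsB_iff h3 hp hq hpq with h7 | h7
      · exact compat_of_okB (h2 p hp) h7 g g' hg hg' hgA hgB hr hc
      · exact (compat_of_okB (h2 q hq) h7 g' g hg' hg hgB hgA (fun i => (hr i).symm)
          (fun c => (hc c).symm)).symm

/-- The positions `L` are holes of the family of the table. -/
def holesB (n d : ℕ) (tab : List Entry) (L : List (List ℕ)) : Bool :=
  (List.range n).all fun k => ((L.getD k []).length == d) && ((L.getD k []).sum == n - 1) &&
    ((List.range d).all fun c => Nat.testBit ((lk tab (L.getD k [])).getD k 0) c)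

theorem tRealized_of_certB {tab : List Entry} {v : Fin n → Fin d → ℕ}
    (h : certB n d tab = true) (h' : holesB n d tab (rows v) = true) : TRealized n d v := by
  have hrow : ∀ k : Fin n, (rows v).getD k.1 [] = List.ofFn (v k) := by
    intro k
    simp [rows, List.getD_eq_getElem?_getD]
  unfold holesB at h'
  rw [List.all_eq_true] at h'
  refine ⟨famOf tab, treeFam_of_certB h, fun k => ?_, fun k => ?_⟩
  · have h1 := h' k.1 (List.mem_range.2 k.2)
    rw [hrow, Bool.and_eq_true, Bool.and_eq_true, beq_iff_eq, beq_iff_eq, List.sum_ofFn] at h1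
    exact h1.1.2
  · have h1 := h' k.1 (List.mem_range.2 k.2)
    rw [hrow, Bool.and_eq_true, List.all_eq_true] at h1
    apply Finset.eq_univ_iff_forall.2
    intro c
    unfold famOf
    rw [mem_maskSet]
    exact h1.2 c.1 (List.mem_range.2 c.2)

end Helper50.SO
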