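import Pool.Agent.Helper50.SO.Base44

set_option autoImplicit false

/-! Four labels, any number of colours. -/

namespace Helper50.SO

open Helper13.TS (SpreadOut)
open Pool.Agent.Helper28.SO (TRealized Realized)

theorem tRealized_four_labels {n : ℕ} (hn : 1 ≤ n) (hn4 : n ≤ 4) : ∀ d, 1 ≤ d →
    ∀ v : Fin n → Fin d → ℕ, (∀ i, ∑ c, v i c = n - 1) → SpreadOut n v → TRealized n d v := by
  by_cases h3 : n ≤ 3
  · refine tRealized_all hn 3 le_rfl (fun d h1 h2 => by omega) (lt_of_base ?_)
    interval_cases n <;> norm_num
  · have h4 : n = 4 := by omega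
    subst h4
    refine tRealized_all hn 4 (by norm_num) (fun d h1 h2 v hv hs => ?_)
      (lt_of_base (by norm_num))
    have h5 : d = 4 := by omega
    subst h5
    exact q44 v hv hs

end Helper50.SO
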