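import Pool.Agent.Helper50.SO.FiveStep
import Pool.Agent.Helper50.SO.Four
import Pool.Agent.Helper96.TS.D54.Main
import Pool.Agent.Helper96.TS.D55.Main

set_option autoImplicit false

/-! At most five labels, every dimension. -/

namespace Helper50.SO

open Helper13.TS (SpreadOut)
open Pool.Agent.Helper28.SO (TRealized)

/-- The conjecture for `n ≤ 5` labels in every dimension. -/
theorem tRealized_five_labels {n : ℕ} (hn : 1 ≤ n) (hn5 : n ≤ 5) :
    ∀ d, 1 ≤ d → ∀ v : Fin n → Fin d → ℕ, (∀ i, ∑ c, v i c = n - 1) → SpreadOut n v →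
      TRealized n d v := by
  rcases Nat.lt_or_ge n 5 with h | h
  · exact tRealized_four_labels hn (by omega)
  · obtain rfl : n = 5 := by omega
    exact tRealized_five_of
      (fun v hv hs => Pool.Agent.Helper96.TS.D54.main v hv hs)
      (fun v hv hc hs => Pool.Agent.Helper96.TS.D55.main v hv hc hs)

end Helper50.SO
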