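import Pool.Agent.Helper50.SO.Step

set_option autoImplicit false

/-! Five labels: the reduction to (5,4) and (5,5). -/

namespace Helper50.SO

open Helper13.TS (SpreadOut)
open Pool.Agent.Helper28.SO (TRealized mergeV sum_mergeV)

/-- Five labels from the two finite statements. -/
theorem tRealized_five_of
    (q54 : ∀ v : Fin 5 → Fin 4 → ℕ, (∀ k, ∑ c, v k c = 4) → SpreadOut 5 v → TRealized 5 4 v)
    (q55 : ∀ v : Fin 5 → Fin 5 → ℕ, (∀ k, ∑ c, v k c = 4) → (∀ c, ∑ k, v k c = 4) →
      SpreadOut 5 v → TRealized 5 5 v) :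
    ∀ d, 1 ≤ d → ∀ v : Fin 5 → Fin d → ℕ, (∀ i, ∑ c, v i c = 5 - 1) → SpreadOut 5 v →
      TRealized 5 d v := by
  refine tRealized_all (by norm_num) 5 (by norm_num) (fun d h1 h2 v hv hs => ?_)
    (lt_of_base (by norm_num))
  have h3 : d = 4 ∨ d = 5 := by omega
  rcases h3 with rfl | rfl
  · exact q54 v hv hs
  · by_cases h4 : ∀ c, ∑ k, v k c = 4
    · exact q55 v hv h4 hs
    · -- some colour is used at most three times
      have h5 : ∃ y, ∑ k, v k y < 4 := by
        by_contra hcon
        push Not at hcon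
        push Not at h4
        obtain ⟨c, hc⟩ := h4
        have e1 : ∑ y, ∑ k, v k y = 20 := by
          rw [Finset.sum_comm, Finset.sum_congr rfl fun i _ => hv i]
          simp
        have e2 : ∑ y : Fin 5, 4 < ∑ y, ∑ k, v k y := by
          refine Finset.sum_lt_sum (fun y _ => hcon y) ⟨c, Finset.mem_univ c, ?_⟩
          have := hcon c
          omega
        rw [e1] at e2
        simp at e2
      obtain ⟨y, hy⟩ := h5
      obtain ⟨s, h6⟩ := exists_merge_of_sum_le_three hs hv y (by omega) (by omega)
      exact TRealized.merge (by norm_num) (by norm_num) y s v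
        (q54 _ (fun i => (sum_mergeV y s _).trans (hv i)) h6)

end Helper50.SO
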