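import Pool.Agent.Helper50.SO.ZeroOne

set_option autoImplicit false

/-! Colours which are used at most three times: the submodular calculus. -/

namespace Helper50.SO

variable {n d : ℕ}

/-- Labels above a vector. -/
structure CS (n d : ℕ) where
  O : (Fin d → ℕ) → Finset (Fin n)
  sup : ∀ a b, O (a ⊔ b) = O a ∩ O b
  inf : ∀ a b, O a ∪ O b ⊆ O (a ⊓ b)
  nn : ∀ a, (O a).Nonempty → ∑ c, a c + (O a).card ≤ n

/-- The slack. -/
def CS.c (S : CS n d) (a : Fin d → ℕ) : ℤ := (n : ℤ) - (∑ x, a x : ℕ) - (S.O a).card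

theorem sum_inf_sup (a b : Fin d → ℕ) :
    ∑ x, (a ⊓ b) x + ∑ x, (a ⊔ b) x = ∑ x, a x + ∑ x, b x := by
  rw [← Finset.sum_add_distrib, ← Finset.sum_add_distrib]
  refine Finset.sum_congr rfl fun x _ => ?_
  show min (a x) (b x) + max (a x) (b x) = a x + b x
  omega

namespace CS

variable (S : CS n d)

theorem card_eq (a b : Fin d → ℕ) :
    (S.O a ∪ S.O b).card + (S.O (a ⊔ b)).card = (S.O a).card + (S.O b).card := by
  rw [S.sup]
  exact Finset.card_union_add_card_inter _ _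

theorem sub (a b : Fin d → ℕ) : S.c (a ⊓ b) + S.c (a ⊔ b) ≤ S.c a + S.c b := by
  have h1 := sum_inf_sup a b
  have h2 := S.card_eq a b
  have h3 := Finset.card_le_card (S.inf a b)
  unfold c
  omega

theorem sub_eq {a b : Fin d → ℕ} (h : S.c a + S.c b ≤ S.c (a ⊓ b) + S.c (a ⊔ b)) :
    S.O (a ⊓ b) = S.O a ∪ S.O b := by
  have h1 := sum_inf_sup a b
  have h2 := S.card_eq a b
  unfold c at h
  symm
  apply Finset.eq_of_subset_of_card_le (S.inf a b)
  omega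

theorem empty_of_neg {a : Fin d → ℕ} (h : S.c a < 0) : S.O a = ∅ := by
  rw [← Finset.not_nonempty_iff_eq_empty]
  intro hne
  have := S.nn a hne
  unfold c at h
  omega

theorem c_of_empty {a : Fin d → ℕ} (h : S.O a = ∅) : S.c a = (n : ℤ) - (∑ x, a x : ℕ) := by
  unfold c
  rw [h]
  simp

theorem anti {a b : Fin d → ℕ} (h : a ≤ b) : S.O b ⊆ S.O a := by
  have h1 : a ⊓ b = a := inf_eq_left.2 h
  have h2 := S.inf a b
  rw [h1] at h2
  exact Finset.subset_union_right.trans h2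

end CS

/-- `g + t e_z`. -/
def ad (g : Fin d → ℕ) (z : Fin d) (t : ℕ) : Fin d → ℕ := fun x => g x + if x = z then t else 0

theorem le_at {a b : Fin d → ℕ} (h : a ≤ b) (x : Fin d) : a x ≤ b x := h x

theorem ad_apply (g : Fin d → ℕ) (z : Fin d) (t : ℕ) (x : Fin d) :
    ad g z t x = g x + if x = z then t else 0 := rfl

theorem sum_ad (g : Fin d → ℕ) (z : Fin d) (t : ℕ) : ∑ x, ad g z t x = ∑ x, g x + t := by
  unfold ad
  rw [Finset.sum_add_distrib, Finset.sum_ite_eq' Finset.univ z, if_pos (Finset.mem_univ z)]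

theorem le_ad (g : Fin d → ℕ) (z : Fin d) (t : ℕ) : g ≤ ad g z t := fun x => Nat.le_add_right _ _

theorem ad_self (g : Fin d → ℕ) (z : Fin d) (t : ℕ) : ad g z t z = g z + t := by
  unfold ad
  rw [if_pos rfl]

theorem ad_ne (g : Fin d → ℕ) {z x : Fin d} (t : ℕ) (h : x ≠ z) : ad g z t x = g x := by
  unfold ad
  rw [if_neg h, add_zero]

theorem inf_le_of_ne {g a b : Fin d → ℕ} {z z' : Fin d} {t t' : ℕ} (hne : z ≠ z')
    (ha : a ≤ ad g z t) (hb : b ≤ ad g z' t') : a ⊓ b ≤ g := by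
  intro x
  by_cases hx : x = z
  · have h1 := hb x
    rw [ad_ne g t' (by rw [hx]; exact hne)] at h1
    exact (min_le_right _ _).trans h1
  · have h1 := ha x
    rw [ad_ne g t hx] at h1
    exact (min_le_left _ _).trans h1

theorem sum_le {a b : Fin d → ℕ} (h : a ≤ b) : ∑ x, a x ≤ ∑ x, b x :=
  Finset.sum_le_sum fun x _ => h x

/-- **(C2)** Moving `t` units to another colour is dependent for at most `t` colours. -/
theorem CS.C2 (S : CS n d) (g : Fin d → ℕ) (t : ℕ) (hg : ∑ x, g x + t + 1 = n)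
    (h1 : ∀ a, a ≤ g → 1 ≤ S.c a) (Z : Finset (Fin d))
    (hZ : ∀ z ∈ Z, ∃ a, a ≤ ad g z t ∧ S.c a ≤ 0) : Z.card ≤ t := by
  classical
  have hZ' : ∀ z, ∃ a, z ∈ Z → a ≤ ad g z t ∧ S.c a ≤ 0 := by
    intro z
    by_cases hz : z ∈ Z
    · obtain ⟨a, ha⟩ := hZ z hz
      exact ⟨a, fun _ => ha⟩
    · exact ⟨g, fun h => absurd h hz⟩
  choose A hA using hZ'
  have hdis : ∀ z ∈ Z, ∀ z' ∈ Z, z ≠ z' → Disjoint (S.O (A z)) (S.O (A z')) := by
    intro z hz z' hz' hne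
    have h2 := S.sub (A z) (A z')
    have h3 := h1 _ (inf_le_of_ne hne (hA z hz).1 (hA z' hz').1)
    have h4 := (hA z hz).2
    have h5 := (hA z' hz').2
    have h6 : S.c (A z ⊔ A z') < 0 := by omega
    rw [Finset.disjoint_iff_inter_eq_empty, ← S.sup]
    exact S.empty_of_neg h6
  have key : ∀ Z' : Finset (Fin d), Z' ⊆ Z → ∃ w : Fin d → ℕ, w ≤ g ∧ (∀ z ∈ Z', w ≤ A z) ∧
      (n : ℤ) - 1 - t + Z'.card - ∑ z ∈ Z', ((S.O (A z)).card : ℤ) ≤ (∑ x, w x : ℕ) := by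
    intro Z'
    induction Z' using Finset.induction_on with
    | empty =>
      intro _
      refine ⟨g, le_rfl, fun z hz => absurd hz (Finset.notMem_empty _), ?_⟩
      simp only [Finset.card_empty, Finset.sum_empty]
      omega
    | insert z Z' hz ih =>
      intro hsub
      obtain ⟨w, hw1, hw2, hw3⟩ := ih ((Finset.subset_insert _ _).trans hsub)
      have hzZ := hsub (Finset.mem_insert_self _ _)
      refine ⟨w ⊓ A z, inf_le_left.trans hw1, ?_, ?_⟩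
      · intro z' hz'
        rcases Finset.mem_insert.1 hz' with rfl | hz'
        · exact inf_le_right
        · exact inf_le_left.trans (hw2 z' hz')
      · rw [Finset.card_insert_of_notMem hz, Finset.sum_insert hz]
        have h2 := sum_inf_sup w (A z)
        have h3 : w ⊔ A z ≤ ad g z t := sup_le (hw1.trans (le_ad _ _ _)) (hA z hzZ).1
        have h4 := sum_le h3
        rw [sum_ad] at h4
        have h5 := (hA z hzZ).2
        unfold c at h5
        omega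
  obtain ⟨w, hw1, hw2, hw3⟩ := key Z (Finset.Subset.refl _)
  have h2 : Z.biUnion (fun z => S.O (A z)) ⊆ S.O w := by
    intro i hi
    obtain ⟨z, hz, hi⟩ := Finset.mem_biUnion.1 hi
    exact S.anti (hw2 z hz) hi
  have h3 := Finset.card_le_card h2
  rw [Finset.card_biUnion (fun z hz z' hz' hne => hdis z hz z' hz' hne)] at h3
  have h4 := h1 w hw1
  unfold c at h4
  have h5 : ((∑ z ∈ Z, (S.O (A z)).card : ℕ) : ℤ) = ∑ z ∈ Z, ((S.O (A z)).card : ℤ) := by
    push_cast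
    rfl
  omega

/-! ### The type (2,1) -/

section TwoOne

variable (S : CS n d) (g₁ g₂ : Fin d → ℕ)

def T1 (z : Fin d) : Prop := ∃ a, a ≤ ad g₁ z 2 ∧ S.c a ≤ 0

def T2 (z : Fin d) : Prop := ∃ a, a ≤ ad g₂ z 1 ∧ S.c a ≤ 0

def T12 (z : Fin d) : Prop := ∃ a, a ≤ ad g₁ z 2 ∧ a ≤ ad g₂ z 1 ∧ S.c a ≤ 1

variable {S g₁ g₂}

/-- Three colours of type `T12`. -/
theorem trip (hg2 : ∑ x, g₂ x + 2 = n) (h12 : ∀ a, a ≤ g₁ → a ≤ g₂ → 2 ≤ S.c a)
    {z₁ z₂ z₃ : Fin d} (h₁₂ : z₁ ≠ z₂) (h₁₃ : z₁ ≠ z₃) (h₂₃ : z₂ ≠ z₃) {a₁ a₂ a₃ : Fin d → ℕ}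
    (p₁ : a₁ ≤ ad g₁ z₁ 2) (q₁ : a₁ ≤ ad g₂ z₁ 1) (c₁ : S.c a₁ ≤ 1)
    (p₂ : a₂ ≤ ad g₁ z₂ 2) (q₂ : a₂ ≤ ad g₂ z₂ 1) (c₂ : S.c a₂ ≤ 1)
    (p₃ : a₃ ≤ ad g₁ z₃ 2) (q₃ : a₃ ≤ ad g₂ z₃ 1) (c₃ : S.c a₃ ≤ 1) :
    (∀ x, x ≠ z₁ → x ≠ z₂ → x ≠ z₃ → g₂ x ≤ g₁ x) ∧ S.c ((a₁ ⊔ a₂) ⊔ a₃) = -1 ∧
      2 ≤ S.c (a₁ ⊓ a₂) ∧ 2 ≤ S.c ((a₁ ⊔ a₂) ⊓ a₃) ∧ 2 ≤ S.c ((a₁ ⊓ a₂) ⊓ a₃) := by
  have e1 : 2 ≤ S.c (a₁ ⊓ a₂) := h12 _ (inf_le_of_ne h₁₂ p₁ p₂) (inf_le_of_ne h₁₂ q₁ q₂)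
  have e2 : 2 ≤ S.c ((a₁ ⊔ a₂) ⊓ a₃) := by
    apply h12
    · intro x
      have x1 := le_at p₁ x
      have x2 := le_at p₂ x
      have x3 := le_at p₃ x
      rw [ad_apply] at x1 x2 x3
      show min (max (a₁ x) (a₂ x)) (a₃ x) ≤ g₁ x
      by_cases hx : x = z₃
      · rw [if_neg (by rw [hx]; exact h₁₃.symm)] at x1
        rw [if_neg (by rw [hx]; exact h₂₃.symm)] at x2
        omega
      · rw [if_neg hx] at x3
        omega
    · intro x
      have x1 := le_at q₁ x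
      have x2 := le_at q₂ x
      have x3 := le_at q₃ x
      rw [ad_apply] at x1 x2 x3
      show min (max (a₁ x) (a₂ x)) (a₃ x) ≤ g₂ x
      by_cases hx : x = z₃
      · rw [if_neg (by rw [hx]; exact h₁₃.symm)] at x1
        rw [if_neg (by rw [hx]; exact h₂₃.symm)] at x2
        omega
      · rw [if_neg hx] at x3
        omega
  have e3 : 2 ≤ S.c ((a₁ ⊓ a₂) ⊓ a₃) :=
    h12 _ (inf_le_left.trans (inf_le_of_ne h₁₂ p₁ p₂)) (inf_le_left.trans (inf_le_of_ne h₁₂ q₁ q₂))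
  have s1 := S.sub a₁ a₂
  have s2 := S.sub (a₁ ⊔ a₂) a₃
  have e4 : S.c ((a₁ ⊔ a₂) ⊔ a₃) ≤ -1 := by omega
  have e5 := S.c_of_empty (S.empty_of_neg (a := (a₁ ⊔ a₂) ⊔ a₃) (by omega))
  -- the upper bound
  have hbd : ∀ x, ((a₁ ⊔ a₂) ⊔ a₃) x ≤ g₂ x + ((if x = z₁ then 1 else 0) +
      (if x = z₂ then 1 else 0) + if x = z₃ then 1 else 0) := by
    intro x
    have x1 := le_at q₁ x
    have x2 := le_at q₂ x
    have x3 := le_at q₃ x
    rw [ad_apply] at x1 x2 x3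
    show max (max (a₁ x) (a₂ x)) (a₃ x) ≤ _
    omega
  have hsum : ∑ x, (g₂ x + ((if x = z₁ then 1 else 0) +
      (if x = z₂ then 1 else 0) + if x = z₃ then 1 else 0)) = n + 1 := by
    rw [Finset.sum_add_distrib, Finset.sum_add_distrib, Finset.sum_add_distrib]
    simp only [Finset.sum_ite_eq', Finset.mem_univ, if_true]
    omega
  have hle : ∑ x, ((a₁ ⊔ a₂) ⊔ a₃) x ≤ n + 1 := by
    rw [← hsum]
    exact Finset.sum_le_sum fun x _ => hbd x
  refine ⟨?_, by omega, e1, e2, e3⟩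
  intro x hx1 hx2 hx3
  by_contra hlt
  push Not at hlt
  have hlt' : ∑ x, ((a₁ ⊔ a₂) ⊔ a₃) x < n + 1 := by
    rw [← hsum]
    refine Finset.sum_lt_sum (fun x _ => hbd x) ⟨x, Finset.mem_univ _, ?_⟩
    have x1 := le_at p₁ x
    have x2 := le_at p₂ x
    have x3 := le_at p₃ x
    rw [ad_apply] at x1 x2 x3
    rw [if_neg hx1] at x1
    rw [if_neg hx2] at x2
    rw [if_neg hx3] at x3
    rw [if_neg hx1, if_neg hx2, if_neg hx3]
    show max (max (a₁ x) (a₂ x)) (a₃ x) < _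
    omega
  omega

theorem card_le_three (hg1 : ∑ x, g₁ x + 3 = n) (hg2 : ∑ x, g₂ x + 2 = n)
    (h1 : ∀ a, a ≤ g₁ → 1 ≤ S.c a) (h2 : ∀ a, a ≤ g₂ → 1 ≤ S.c a)
    (h12 : ∀ a, a ≤ g₁ → a ≤ g₂ → 2 ≤ S.c a) (Z : Finset (Fin d))
    (hZ : ∀ z ∈ Z, T1 S g₁ z ∨ T2 S g₂ z ∨ T12 S g₁ g₂ z) : Z.card ≤ 3 := by
  classical
  let A := Z.filter (fun z => T1 S g₁ z)
  let B := Z.filter (fun z => ¬ T1 S g₁ z ∧ T2 S g₂ z)
  let C := Z.filter (fun z => ¬ T1 S g₁ z ∧ ¬ T2 S g₂ z)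
  have hcard : Z.card = A.card + (B.card + C.card) := by
    have e1 := Finset.card_filter_add_card_filter_not (s := Z) (fun z => T1 S g₁ z)
    have e2 := Finset.card_filter_add_card_filter_not
      (s := Z.filter (fun z => ¬ T1 S g₁ z)) (fun z => T2 S g₂ z)
    rw [Finset.filter_filter, Finset.filter_filter] at e2
    show Z.card = (Z.filter (fun z => T1 S g₁ z)).card + _
    rw [e2, e1]
  have hA2 : A.card ≤ 2 := S.C2 g₁ 2 (by omega) h1 A fun z hz => (Finset.mem_filter.1 hz).2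
  have hB1 : B.card ≤ 1 := S.C2 g₂ 1 (by omega) h2 B fun z hz => (Finset.mem_filter.1 hz).2.2
  have hC : ∀ z ∈ C, T12 S g₁ g₂ z := by
    intro z hz
    have hz' := Finset.mem_filter.1 hz
    rcases hZ z hz'.1 with h | h | h
    · exact absurd h hz'.2.1
    · exact absurd h hz'.2.2
    · exact h
  have hC1 : ∀ z ∈ C, ¬ T1 S g₁ z := fun z hz => (Finset.mem_filter.1 hz).2.1
  have hC2 : ∀ z ∈ C, ¬ T2 S g₂ z := fun z hz => (Finset.mem_filter.1 hz).2.2
  -- fact X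
  have hX : (∃ A₁, A₁ ≤ g₁ ∧ S.c A₁ ≤ 1) → ∀ z ∈ C, ∀ a, a ≤ ad g₁ z 2 → a ≤ ad g₂ z 1 →
      S.c a ≤ 1 → g₂ z + 1 ≤ g₁ z := by
    rintro ⟨A₁, hA1, hcA⟩ z hz a ha1 ha2 hca
    by_contra hlt
    apply hC1 z hz
    refine ⟨a ⊔ A₁, sup_le ha1 (hA1.trans (le_ad _ _ _)), ?_⟩
    have e1 : 2 ≤ S.c (a ⊓ A₁) := by
      refine h12 _ (inf_le_right.trans hA1) ?_
      intro x
      have x1 := le_at ha2 x
      have x2 := le_at hA1 x
      rw [ad_apply] at x1
      show min (a x) (A₁ x) ≤ g₂ x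
      by_cases hx : x = z
      · rw [hx] at x1 x2 ⊢
        omega
      · rw [if_neg hx] at x1
        omega
    have e2 := S.sub a A₁
    omega
  have hY : (∃ A₂, A₂ ≤ g₂ ∧ S.c A₂ ≤ 1) → ∀ z ∈ C, ∀ a, a ≤ ad g₁ z 2 → a ≤ ad g₂ z 1 →
      S.c a ≤ 1 → g₁ z + 1 ≤ g₂ z := by
    rintro ⟨A₂, hA2, hcA⟩ z hz a ha1 ha2 hca
    by_contra hlt
    apply hC2 z hz
    refine ⟨a ⊔ A₂, sup_le ha2 (hA2.trans (le_ad _ _ _)), ?_⟩
    have e1 : 2 ≤ S.c (a ⊓ A₂) := by
      refine h12 _ ?_ (inf_le_right.trans hA2)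
      intro x
      have x1 := le_at ha1 x
      have x2 := le_at hA2 x
      rw [ad_apply] at x1
      show min (a x) (A₂ x) ≤ g₁ x
      by_cases hx : x = z
      · rw [hx] at x1 x2 ⊢
        omega
      · rw [if_neg hx] at x1
        omega
    have e2 := S.sub a A₂
    omega
  by_cases hα : ∃ A₁, A₁ ≤ g₁ ∧ S.c A₁ ≤ 1
  · by_cases hβ : ∃ A₂, A₂ ≤ g₂ ∧ S.c A₂ ≤ 1
    · -- both
      have hC0 : C = ∅ := by
        rw [Finset.eq_empty_iff_forall_notMem]
        intro z hz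
        obtain ⟨a, ha1, ha2, hca⟩ := hC z hz
        have x1 := hX hα z hz a ha1 ha2 hca
        have x2 := hY hβ z hz a ha1 ha2 hca
        omega
      rw [hC0] at hcard
      simp only [Finset.card_empty] at hcard
      omega
    · -- only the first one
      push Not at hβ
      have hB0 : B = ∅ := by
        rw [Finset.eq_empty_iff_forall_notMem]
        intro z hz
        obtain ⟨a, ha, hca⟩ := (Finset.mem_filter.1 hz).2.2
        have x1 := hβ (a ⊓ g₂) inf_le_right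
        have x2 := sum_inf_sup a g₂
        have x3 := sum_le (sup_le ha (le_ad g₂ z 1))
        rw [sum_ad] at x3
        have x4 := Finset.card_le_card (S.anti (a := a ⊓ g₂) (b := a) inf_le_left)
        unfold CS.c at x1 hca
        omega
      have hC1' : C.card ≤ 1 := by
        rw [Finset.card_le_one]
        intro z hz z' hz'
        by_contra hne
        obtain ⟨a, ha1, ha2, hca⟩ := hC z hz
        obtain ⟨a', ha1', ha2', hca'⟩ := hC z' hz'
        have x1 := hX hα z hz a ha1 ha2 hca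
        have x2 := hX hα z' hz' a' ha1' ha2' hca'
        have hle : ∀ (z : Fin d) (a : Fin d → ℕ), a ≤ ad g₁ z 2 → a ≤ ad g₂ z 1 →
            g₂ z + 1 ≤ g₁ z → a ≤ g₁ := by
          intro z a ha1 ha2 hz x
          have y1 := le_at ha1 x
          have y2 := le_at ha2 x
          rw [ad_apply] at y1 y2
          show a x ≤ g₁ x
          by_cases hx : x = z
          · rw [hx] at y2 ⊢
            rw [if_pos rfl] at y2
            omega
          · rw [if_neg hx] at y1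
            omega
        have e1 := h12 _ (inf_le_of_ne hne ha1 ha1') (inf_le_of_ne hne ha2 ha2')
        have e2 := h1 (a ⊔ a') (sup_le (hle z a ha1 ha2 x1) (hle z' a' ha1' ha2' x2))
        have e3 := S.sub a a'
        omega
      rw [hB0] at hcard
      simp only [Finset.card_empty] at hcard
      omega
  · push Not at hα
    have hA1 : A.card ≤ 1 := by
      rw [Finset.card_le_one]
      intro z hz z' hz'
      by_contra hne
      obtain ⟨a, ha, hca⟩ := (Finset.mem_filter.1 hz).2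
      obtain ⟨a', ha', hca'⟩ := (Finset.mem_filter.1 hz').2
      have e1 := hα _ (inf_le_of_ne hne ha ha')
      have e2 := S.sub a a'
      have e3 := S.c_of_empty (S.empty_of_neg (a := a ⊔ a') (by omega))
      have e4 : ∑ x, (a ⊔ a') x ≤ ∑ x, ad (ad g₁ z 2) z' 2 x := by
        refine sum_le (sup_le (ha.trans (le_ad _ _ _)) (ha'.trans ?_))
        intro x
        show ad g₁ z' 2 x ≤ ad (ad g₁ z 2) z' 2 x
        rw [ad_apply, ad_apply, ad_apply]
        omega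
      rw [sum_ad, sum_ad] at e4
      omega
    by_cases hβ : ∃ A₂, A₂ ≤ g₂ ∧ S.c A₂ ≤ 1
    · -- only the second one
      have hC1' : C.card ≤ 1 := by
        obtain ⟨A₂, hA2', hcA⟩ := hβ
        rw [Finset.card_le_one]
        intro z hz z' hz'
        by_contra hne
        obtain ⟨a, ha1, ha2, hca⟩ := hC z hz
        obtain ⟨a', ha1', ha2', hca'⟩ := hC z' hz'
        have y1 : 1 ≤ S.c (a ⊔ A₂) := by
          by_contra hlt
          exact hC2 z hz ⟨a ⊔ A₂, sup_le ha2 (hA2'.trans (le_ad _ _ _)), by omega⟩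
        have y2 : 1 ≤ S.c (a' ⊔ A₂) := by
          by_contra hlt
          exact hC2 z' hz' ⟨a' ⊔ A₂, sup_le ha2' (hA2'.trans (le_ad _ _ _)), by omega⟩
        have y3 := S.sub a A₂
        have y4 := S.sub a' A₂
        have y5 := h12 ((a ⊓ A₂) ⊓ (a' ⊓ A₂))
          (inf_le_of_ne hne (inf_le_left.trans ha1) (inf_le_left.trans ha1'))
          (inf_le_left.trans (inf_le_right.trans hA2'))
        have y6 := h2 ((a ⊓ A₂) ⊔ (a' ⊓ A₂))
          (sup_le (inf_le_right.trans hA2') (inf_le_right.trans hA2'))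
        have y7 := S.sub (a ⊓ A₂) (a' ⊓ A₂)
        omega
      omega
    · -- none
      push Not at hβ
      have hB0 : B = ∅ := by
        rw [Finset.eq_empty_iff_forall_notMem]
        intro z hz
        obtain ⟨a, ha, hca⟩ := (Finset.mem_filter.1 hz).2.2
        have x1 := hβ (a ⊓ g₂) inf_le_right
        have x2 := sum_inf_sup a g₂
        have x3 := sum_le (sup_le ha (le_ad g₂ z 1))
        rw [sum_ad] at x3
        have x4 := Finset.card_le_card (S.anti (a := a ⊓ g₂) (b := a) inf_le_left)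
        unfold CS.c at x1 hca
        omega
      have hC3 : C.card ≤ 3 := by
        by_contra hlt
        push Not at hlt
        have hall : g₂ ≤ g₁ := by
          intro x
          have x1 : 2 < (C.erase x).card := by
            have := Finset.pred_card_le_card_erase (s := C) (a := x)
            omega
          obtain ⟨z₁, hz₁, z₂, hz₂, z₃, hz₃, h₁₂, h₁₃, h₂₃⟩ := Finset.two_lt_card.1 x1
          have k₁ := Finset.mem_erase.1 hz₁
          have k₂ := Finset.mem_erase.1 hz₂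
          have k₃ := Finset.mem_erase.1 hz₃
          obtain ⟨a₁, p₁, q₁, c₁⟩ := hC z₁ k₁.2
          obtain ⟨a₂, p₂, q₂, c₂⟩ := hC z₂ k₂.2
          obtain ⟨a₃, p₃, q₃, c₃⟩ := hC z₃ k₃.2
          exact (trip hg2 h12 h₁₂ h₁₃ h₂₃ p₁ q₁ c₁ p₂ q₂ c₂ p₃ q₃ c₃).1 x k₁.1.symm k₂.1.symm
            k₃.1.symm
        have := sum_le hall
        omega
      have hAC : A.Nonempty → C.card ≤ 2 := by
        rintro ⟨z₀, hz₀⟩
        by_contra hlt
        push Not at hlt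
        obtain ⟨z₁, hz₁, z₂, hz₂, z₃, hz₃, h₁₂, h₁₃, h₂₃⟩ := Finset.two_lt_card.1 hlt
        obtain ⟨a₁, p₁, q₁, c₁⟩ := hC z₁ hz₁
        obtain ⟨a₂, p₂, q₂, c₂⟩ := hC z₂ hz₂
        obtain ⟨a₃, p₃, q₃, c₃⟩ := hC z₃ hz₃
        obtain ⟨-, k1, k2, k3, k4⟩ := trip hg2 h12 h₁₂ h₁₃ h₂₃ p₁ q₁ c₁ p₂ q₂ c₂ p₃ q₃ c₃
        obtain ⟨a₀, p₀, c₀⟩ := (Finset.mem_filter.1 hz₀).2
        have hne : ∀ z ∈ C, z₀ ≠ z := by
          intro z hz h
          exact hC1 z hz (h ▸ (Finset.mem_filter.1 hz₀).2)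
        have hdis : ∀ z ∈ C, ∀ a, a ≤ ad g₁ z 2 → S.c a ≤ 1 → S.O a₀ ∩ S.O a = ∅ := by
          intro z hz a ha hca
          have e1 := hα _ (inf_le_of_ne (hne z hz) p₀ ha)
          have e2 := S.sub a₀ a
          rw [← S.sup]
          exact S.empty_of_neg (by omega)
        have s1 := S.sub a₁ a₂
        have s2 := S.sub (a₁ ⊔ a₂) a₃
        have s3 := S.sub (a₁ ⊓ a₂) a₃
        have e1 : S.O (a₁ ⊓ a₂) = S.O a₁ ∪ S.O a₂ := S.sub_eq (by omega)
        have e2 : 1 ≤ S.c ((a₁ ⊓ a₂) ⊔ a₃) := by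
          by_contra hlt
          refine hC1 z₃ hz₃ ⟨(a₁ ⊓ a₂) ⊔ a₃, sup_le ?_ p₃, by omega⟩
          exact (inf_le_of_ne h₁₂ p₁ p₂).trans (le_ad _ _ _)
        have e3 : S.O ((a₁ ⊓ a₂) ⊓ a₃) = S.O (a₁ ⊓ a₂) ∪ S.O a₃ := S.sub_eq (by omega)
        have e4 : S.O (a₀ ⊔ ((a₁ ⊓ a₂) ⊓ a₃)) = ∅ := by
          rw [S.sup, e3, e1, Finset.inter_union_distrib_left, Finset.inter_union_distrib_left,
            hdis z₁ hz₁ a₁ p₁ c₁, hdis z₂ hz₂ a₂ p₂ c₂, hdis z₃ hz₃ a₃ p₃ c₃]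
          simp
        have e5 := S.c_of_empty e4
        have e6 : ((a₁ ⊓ a₂) ⊓ a₃) ≤ g₁ := inf_le_left.trans (inf_le_of_ne h₁₂ p₁ p₂)
        have e7 := sum_le (sup_le p₀ (e6.trans (le_ad g₁ z₀ 2)))
        rw [sum_ad] at e7
        have e8 := hα (a₀ ⊓ ((a₁ ⊓ a₂) ⊓ a₃)) (inf_le_right.trans e6)
        have e9 := S.sub a₀ ((a₁ ⊓ a₂) ⊓ a₃)
        omega
      rw [hB0] at hcard
      simp only [Finset.card_empty] at hcard
      rcases Finset.eq_empty_or_nonempty A with hA | hA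
      · rw [hA] at hcard
        simp only [Finset.card_empty] at hcard
        omega
      · have := hAC hA
        omega

end TwoOne

end Helper50.SO
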