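import Pool.Agent.Helper50.SO.Low

set_option autoImplicit false

/-! A colour used at most three times cannot be merged with at most three colours. -/

namespace Helper50.SO

open Helper13.TS (SpreadOut)
open Pool.Agent.Helper28.SO (mergeV)

variable {n d : ℕ}

/-- The inequality with the colour `y` separated. -/
theorem so_ins {v : Fin n → Fin (d + 1) → ℕ} (hs : SpreadOut n v) (y : Fin (d + 1))
    {J : Finset (Fin n)} (hJ : J.Nonempty) (a : Fin d → ℕ) (k : ℕ)
    (h : ∀ i ∈ J, (∀ c, a c ≤ v i (y.succAbove c)) ∧ k ≤ v i y) :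
    ∑ c, a c + k + J.card ≤ n := by
  have h1 := hs J hJ (fun c => (Fin.insertNth y k a : Fin (d + 1) → ℕ) c) (by
    intro j hj c
    refine Fin.succAboveCases y ?_ ?_ c
    · show (Fin.insertNth y k a : Fin (d + 1) → ℕ) y ≤ v j y
      rw [Fin.insertNth_apply_same]
      exact (h j hj).2
    · intro c
      show (Fin.insertNth y k a : Fin (d + 1) → ℕ) (y.succAbove c) ≤ v j (y.succAbove c)
      rw [Fin.insertNth_apply_succAbove]
      exact (h j hj).1 c)
  rw [Fin.sum_univ_succAbove _ y, Fin.insertNth_apply_same] at h1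
  have h2 : ∑ c, (Fin.insertNth y k a : Fin (d + 1) → ℕ) (y.succAbove c) = ∑ c, a c :=
    Finset.sum_congr rfl fun c _ => Fin.insertNth_apply_succAbove _ _ _ _
  rw [h2] at h1
  have h3 : J.card ≤ n := by simpa using Finset.card_le_univ J
  omega

/-- The labels outside `P` above a vector. -/
def csOf {v : Fin n → Fin (d + 1) → ℕ} (hs : SpreadOut n v) (y : Fin (d + 1))
    (P : Finset (Fin n)) : CS n d where
  O a := Finset.univ.filter (fun i => i ∉ P ∧ ∀ c, a c ≤ v i (y.succAbove c))
  sup a b := by
    ext i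
    simp only [Finset.mem_inter, Finset.mem_filter, Finset.mem_univ, true_and]
    constructor
    · rintro ⟨h1, h2⟩
      exact ⟨⟨h1, fun c => (le_max_left _ _).trans (h2 c)⟩,
        ⟨h1, fun c => (le_max_right _ _).trans (h2 c)⟩⟩
    · rintro ⟨⟨h1, h2⟩, ⟨-, h3⟩⟩
      exact ⟨h1, fun c => max_le (h2 c) (h3 c)⟩
  inf a b := by
    intro i hi
    simp only [Finset.mem_union, Finset.mem_filter, Finset.mem_univ, true_and] at hi ⊢
    rcases hi with ⟨h1, h2⟩ | ⟨h1, h2⟩
    · exact ⟨h1, fun c => (min_le_left _ _).trans (h2 c)⟩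
    · exact ⟨h1, fun c => (min_le_right _ _).trans (h2 c)⟩
  nn a hne := by
    have := so_ins hs y hne a 0 fun i hi => ⟨(Finset.mem_filter.1 hi).2.2, Nat.zero_le _⟩
    omega

theorem mem_csOf {v : Fin n → Fin (d + 1) → ℕ} {hs : SpreadOut n v} {y : Fin (d + 1)}
    {P : Finset (Fin n)} {a : Fin d → ℕ} {i : Fin n} :
    i ∈ (csOf hs y P).O a ↔ i ∉ P ∧ ∀ c, a c ≤ v i (y.succAbove c) := by
  show i ∈ Finset.univ.filter _ ↔ _
  simp

/-- The vector of the other colours. -/
def oth (v : Fin n → Fin (d + 1) → ℕ) (y : Fin (d + 1)) (i : Fin n) : Fin d → ℕ :=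
  fun c => v i (y.succAbove c)

/-- Slack below the vectors of the labels in `P`. -/
theorem c_ge {v : Fin n → Fin (d + 1) → ℕ} (hs : SpreadOut n v) (y : Fin (d + 1))
    (P : Finset (Fin n)) {K : Finset (Fin n)} (hK : K ⊆ P) (hne : K.Nonempty) {a : Fin d → ℕ}
    (h : ∀ i ∈ K, a ≤ oth v y i) : (K.card : ℤ) ≤ (csOf hs y P).c a := by
  classical
  have h1 := so_ins hs y (J := K ∪ (csOf hs y P).O a) (hne.mono Finset.subset_union_left) a 0 (by
    intro i hi
    rcases Finset.mem_union.1 hi with hi | hi
    · exact ⟨fun c => h i hi c, Nat.zero_le _⟩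
    · exact ⟨(mem_csOf.1 hi).2, Nat.zero_le _⟩)
  have h2 : Disjoint K ((csOf hs y P).O a) := by
    rw [Finset.disjoint_left]
    intro i hi hi'
    exact (mem_csOf.1 hi').1 (hK hi)
  rw [Finset.card_union_of_disjoint h2] at h1
  unfold CS.c
  omega

/-- The vector of a blocked colour. -/
theorem exists_vec {v : Fin n → Fin (d + 1) → ℕ} (hs : SpreadOut n v) (y : Fin (d + 1))
    (P : Finset (Fin n)) (hP : ∀ i, i ∉ P → v i y = 0) {s : Fin d}
    (h : ¬ SpreadOut n (fun k => mergeV y s (v k))) :
    ∃ (K : Finset (Fin n)) (a : Fin d → ℕ), K ⊆ P ∧ K.Nonempty ∧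
      (∀ i ∈ K, a ≤ ad (oth v y i) s (v i y)) ∧ (csOf hs y P).c a < K.card := by
  classical
  unfold SpreadOut at h
  push Not at h
  obtain ⟨J, hJ, m, hm, hlt⟩ := h
  have hcard : J.card ≤ n := by simpa using Finset.card_le_univ J
  have hm' : ∀ i ∈ J, m ≤ ad (oth v y i) s (v i y) := fun i hi c => hm i hi c
  have hsub : J \ P ⊆ (csOf hs y P).O m := by
    intro i hi
    obtain ⟨h1, h2⟩ := Finset.mem_sdiff.1 hi
    refine mem_csOf.2 ⟨h2, fun c => ?_⟩
    have h3 := le_at (hm' i h1) c
    rw [ad_apply, hP i h2] at h3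
    simpa [oth] using h3
  have h1 := Finset.card_le_card hsub
  have h2 : (J \ P).card + (J ∩ P).card = J.card := Finset.card_sdiff_add_card_inter J P
  refine ⟨J ∩ P, m, Finset.inter_subset_right, ?_,
    fun i hi => hm' i (Finset.mem_inter.1 hi).1, ?_⟩
  · by_contra hemp
    rw [Finset.not_nonempty_iff_eq_empty] at hemp
    have h3 : ((csOf hs y P).O m).Nonempty := by
      rw [← Finset.card_pos]
      have := hJ.card_pos
      rw [hemp] at h2
      simp only [Finset.card_empty] at h2
      omega
    have h4 := (csOf hs y P).nn m h3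
    rw [hemp] at h2
    simp only [Finset.card_empty] at h2
    omega
  · unfold CS.c
    omega

/-- One label. -/
theorem card_blocked_one {v : Fin n → Fin (d + 1) → ℕ} (hs : SpreadOut n v)
    (hv : ∀ i, ∑ c, v i c = n - 1) (y : Fin (d + 1)) (p : Fin n) (hp : ∀ i, i ≠ p → v i y = 0)
    (B : Finset (Fin d)) (hB : ∀ s ∈ B, ¬ SpreadOut n (fun k => mergeV y s (v k))) :
    B.card ≤ v p y := by
  have hsum : ∑ c, oth v y p c + v p y + 1 = n := by
    have h1 := hv p
    rw [Fin.sum_univ_succAbove _ y] at h1
    have h2 := p.2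
    unfold oth
    omega
  refine (csOf hs y {p}).C2 (oth v y p) (v p y) hsum ?_ B ?_
  · intro a ha
    have := c_ge hs y {p} (K := {p}) (Finset.Subset.refl _) (Finset.singleton_nonempty p)
      (a := a) (fun i hi => by rw [Finset.mem_singleton.1 hi]; exact ha)
    simpa using this
  · intro s hsB
    obtain ⟨K, a, hK, hne, ha, hc⟩ := exists_vec hs y {p} (fun i hi => hp i (by simpa using hi))
      (hB s hsB)
    have hK1 : K = {p} := hne.subset_singleton_iff.1 hK
    subst hK1
    refine ⟨a, ha p (Finset.mem_singleton_self p), ?_⟩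
    rw [Finset.card_singleton] at hc
    omega

/-- Two labels, of multiplicities 2 and 1. -/
theorem card_blocked_two {v : Fin n → Fin (d + 1) → ℕ} (hs : SpreadOut n v)
    (hv : ∀ i, ∑ c, v i c = n - 1) (y : Fin (d + 1)) (p q : Fin n) (hpq : p ≠ q)
    (hp : v p y = 2) (hq : v q y = 1) (h0 : ∀ i, i ≠ p → i ≠ q → v i y = 0)
    (B : Finset (Fin d)) (hB : ∀ s ∈ B, ¬ SpreadOut n (fun k => mergeV y s (v k))) :
    B.card ≤ 3 := by
  classical
  have hsum : ∀ i, ∑ c, oth v y i c + v i y + 1 = n := by
    intro i
    have h1 := hv i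
    rw [Fin.sum_univ_succAbove _ y] at h1
    have h2 := i.2
    unfold oth
    omega
  have h1 := hsum p
  have h2 := hsum q
  rw [hp] at h1
  rw [hq] at h2
  refine card_le_three (S := csOf hs y {p, q}) (g₁ := oth v y p) (g₂ := oth v y q) (by omega)
    (by omega) ?_ ?_ ?_ B ?_
  · intro a ha
    have := c_ge hs y {p, q} (K := {p}) (by simp) (Finset.singleton_nonempty p)
      (a := a) (fun i hi => by rw [Finset.mem_singleton.1 hi]; exact ha)
    simpa using this
  · intro a ha
    have := c_ge hs y {p, q} (K := {q}) (by simp) (Finset.singleton_nonempty q)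
      (a := a) (fun i hi => by rw [Finset.mem_singleton.1 hi]; exact ha)
    simpa using this
  · intro a ha ha'
    have := c_ge hs y {p, q} (K := {p, q}) (Finset.Subset.refl _) ⟨p, by simp⟩
      (a := a) (fun i hi => by
        rcases Finset.mem_insert.1 hi with hi | hi
        · rw [hi]
          exact ha
        · rw [Finset.mem_singleton.1 hi]
          exact ha')
    rw [Finset.card_pair hpq] at this
    simpa using this
  · intro s hsB
    obtain ⟨K, a, hK, hne, ha, hc⟩ := exists_vec hs y {p, q} (fun i hi => by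
      rw [Finset.mem_insert, Finset.mem_singleton, not_or] at hi
      exact h0 i hi.1 hi.2) (hB s hsB)
    have hKc : K.card ≤ 2 := by
      have := Finset.card_le_card hK
      rwa [Finset.card_pair hpq] at this
    by_cases h3 : p ∈ K
    · have e1 := ha p h3
      rw [hp] at e1
      by_cases h4 : q ∈ K
      · have e2 := ha q h4
        rw [hq] at e2
        exact Or.inr (Or.inr ⟨a, e1, e2, by omega⟩)
      · left
        have h5 : K ⊆ {p} := by
          intro i hi
          rcases Finset.mem_insert.1 (hK hi) with h | h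
          · rw [h]
            simp
          · exact absurd ((Finset.mem_singleton.1 h) ▸ hi) h4
        have h6 := Finset.card_le_card h5
        rw [Finset.card_singleton] at h6
        exact ⟨a, e1, by omega⟩
    · right
      left
      have h5 : K ⊆ {q} := by
        intro i hi
        rcases Finset.mem_insert.1 (hK hi) with h | h
        · exact absurd (h ▸ hi) h3
        · exact h
      have h6 := Finset.card_le_card h5
      rw [Finset.card_singleton] at h6
      have h7 : K = {q} := hne.subset_singleton_iff.1 h5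
      have e2 := ha q (by rw [h7]; simp)
      rw [hq] at e2
      exact ⟨a, e2, by omega⟩

/-- **A colour used at most three times is blocked with at most as many colours.** -/
theorem card_blocked_le_sum {v : Fin n → Fin (d + 1) → ℕ} (hs : SpreadOut n v)
    (hv : ∀ i, ∑ c, v i c = n - 1) (y : Fin (d + 1)) (hy : ∑ i, v i y ≤ 3)
    (B : Finset (Fin d)) (hB : ∀ s ∈ B, ¬ SpreadOut n (fun k => mergeV y s (v k))) :
    B.card ≤ ∑ i, v i y := by
  classical
  by_cases h1 : ∀ i, v i y ≤ 1
  · refine (card_blocked_le hs y h1 B hB).trans ?_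
    rw [Finset.card_eq_sum_ones, Finset.sum_filter]
    refine Finset.sum_le_sum fun i _ => ?_
    split_ifs with h
    · rw [h]
    · exact Nat.zero_le _
  · push Not at h1
    obtain ⟨p, hp⟩ := h1
    have e1 := Finset.add_sum_erase Finset.univ (fun i => v i y) (Finset.mem_univ p)
    by_cases h2 : ∀ i, i ≠ p → v i y = 0
    · refine (card_blocked_one hs hv y p h2 B hB).trans ?_
      exact Finset.single_le_sum (f := fun i => v i y) (fun i _ => Nat.zero_le _)
        (Finset.mem_univ p)
    · push Not at h2
      obtain ⟨q, hqp, hq⟩ := h2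
      have e2 := Finset.add_sum_erase (Finset.univ.erase p) (fun i => v i y)
        (Finset.mem_erase.2 ⟨hqp, Finset.mem_univ q⟩)
      have h3 : ∀ i, i ≠ p → i ≠ q → v i y = 0 := by
        intro i hip hiq
        have := Finset.single_le_sum (f := fun i => v i y) (s := (Finset.univ.erase p).erase q)
          (fun i _ => Nat.zero_le _)
          (Finset.mem_erase.2 ⟨hiq, Finset.mem_erase.2 ⟨hip, Finset.mem_univ i⟩⟩)
        omega
      have h4 : v p y = 2 := by omega
      have h5 : v q y = 1 := by omega
      have := card_blocked_two hs hv y p q hqp.symm h4 h5 h3 B hB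
      omega

/-- A colour used at most three times can be merged if there are more than three others. -/
theorem exists_merge_of_sum_le_three {v : Fin n → Fin (d + 1) → ℕ} (hs : SpreadOut n v)
    (hv : ∀ i, ∑ c, v i c = n - 1) (y : Fin (d + 1)) (hy : ∑ i, v i y ≤ 3)
    (hd : ∑ i, v i y < d) : ∃ s : Fin d, SpreadOut n (fun k => mergeV y s (v k)) := by
  classical
  by_contra h
  push Not at h
  have := card_blocked_le_sum hs hv y hy Finset.univ fun s _ => h s
  rw [Finset.card_univ, Fintype.card_fin] at this
  omega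

end Helper50.SO
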