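import Pool.Agent.Helper50.SO.Cert

set_option autoImplicit false

/-! Permutations of labels and colours; enumeration of the spread-out families up to the order of
the labels. -/

namespace Helper50.SO

open Helper13.TS (SpreadOut)
open Pool.Agent.Helper28.SO (TreeFam TRealized mergeV)

variable {n d : ℕ}

theorem TRealized.label {v : Fin n → Fin d → ℕ} (h : TRealized n d v)
    (π : Equiv.Perm (Fin n)) : TRealized n d (fun k => v (π k)) := by
  classical
  obtain ⟨T, hT, hv, hvT⟩ := h
  refine ⟨fun u i => T u (π i), ⟨?_, ?_⟩, fun k => hv (π k), fun k => hvT (π k)⟩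
  · intro u hu c
    rw [← hT.deg u hu c]
    refine Finset.card_bij (fun i _ => π i) ?_ ?_ ?_
    · intro i hi
      simpa using hi
    · intro i _ j _ h
      exact π.injective h
    · intro j hj
      refine ⟨π.symm j, ?_, ?_⟩
      · simpa using hj
      · simp
  · intro u w hu hw g g' hg hg' hgA hgB hr hc
    have key := hT.compat u w hu hw (fun i c => g (π.symm i) c) (fun i c => g' (π.symm i) c)
      (fun i c => hg _ c) (fun i c => hg' _ c) (fun i c hic => hgA _ c (by simpa using hic))
      (fun i c hic => hgB _ c (by simpa using hic)) (fun i => hr _) (fun c => by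
        rw [Equiv.sum_comp π.symm (fun i => g i c), Equiv.sum_comp π.symm (fun i => g' i c)]
        exact hc c)
    funext i c
    have h1 := congrFun (congrFun key (π i)) c
    simpa using h1

theorem SpreadOut.label {v : Fin n → Fin d → ℕ} (h : SpreadOut n v) (π : Equiv.Perm (Fin n)) :
    SpreadOut n (fun k => v (π k)) := by
  classical
  intro J hJ m hm
  have h1 := h (J.image π) (hJ.image π) m (by
    intro j hj c
    obtain ⟨i, hi, rfl⟩ := Finset.mem_image.1 hj
    exact hm i hi c)
  rwa [Finset.card_image_of_injective _ π.injective] at h1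

/-- Every injective family with rows in a list without repetition is, up to the order of the
labels, a sublist (in reverse order). -/
theorem exists_perm_sublist {v : Fin n → Fin d → ℕ} (hinj : Function.Injective v)
    {C : List (List ℕ)} (hC : C.Nodup) (hv : ∀ i, List.ofFn (v i) ∈ C) :
    ∃ (π : Equiv.Perm (Fin n)) (L : List (List ℕ)), L.Sublist C ∧ L.length = n ∧
      rows (fun k => v (π k)) = L.reverse := by
  classical
  let L := C.filter (fun r => decide (r ∈ rows v))
  have hLn : L.Nodup := hC.filter _
  have hrn : (rows v).Nodup := by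
    unfold rows
    rw [List.nodup_ofFn]
    intro i j hij
    apply hinj
    exact List.ofFn_injective hij
  have hperm : L.Perm (rows v) := by
    rw [List.perm_ext_iff_of_nodup hLn hrn]
    intro r
    constructor
    · intro hr
      have := (List.mem_filter.1 hr).2
      simpa using this
    · intro hr
      refine List.mem_filter.2 ⟨?_, by simpa using hr⟩
      unfold rows at hr
      obtain ⟨i, rfl⟩ := List.mem_ofFn.1 hr
      exact hv i
  have hlen : L.length = n := by
    rw [hperm.length_eq]
    simp [rows]
  have hrlen : L.reverse.length = n := by rw [List.length_reverse, hlen]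
  have hmem : ∀ k : Fin n, ∃ i : Fin n, List.ofFn (v i) = L.reverse[k.1]'(by
      rw [hrlen]; exact k.2) := by
    intro k
    have h1 : L.reverse[k.1]'(by rw [hrlen]; exact k.2) ∈ rows v := by
      rw [← hperm.mem_iff]
      exact List.mem_reverse.1 (List.getElem_mem _)
    unfold rows at h1
    exact List.mem_ofFn.1 h1
  choose f hf using hmem
  have hfi : Function.Injective f := by
    intro k l hkl
    have h1 := hf k
    rw [hkl, hf l] at h1
    have h2 := (List.Nodup.getElem_inj_iff (List.nodup_reverse.2 hLn)).1 h1
    exact Fin.ext h2.symm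
  refine ⟨Equiv.ofBijective f (Finite.injective_iff_bijective.1 hfi), L, List.filter_sublist,
    hlen, ?_⟩
  apply List.ext_getElem
  · simp [rows, hrlen]
  · intro k h1 h2
    have hk : k < n := by
      rw [hrlen] at h2
      exact h2
    have h3 := hf ⟨k, hk⟩
    simp only [rows, List.getElem_ofFn]
    exact h3

/-- The enumeration of the spread-out sublists, with a test `f` at the end. -/
def enum (n : ℕ) (f : List (List ℕ) → Bool) :
    ℕ → List (List ℕ) → List (ℕ × List ℕ) → List (List ℕ) → Bool
  | 0, _, _, acc => f acc
  | _ + 1, [], _, _ => true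
  | k + 1, x :: xs, M, acc =>
    (let N := M.map (fun p => (p.1 + 1, mn x p.2))
     if N.all (fun p => Nat.ble (p.2.sum + p.1) n) then enum n f k xs ((1, x) :: (N ++ M)) (x :: acc)
     else true) && enum n f (k + 1) xs M acc

theorem soB_append {L acc : List (List ℕ)} (h : soB n (L ++ acc) = true) :
    soB n acc = true := by
  unfold soB at *
  rw [List.all_eq_true] at *
  induction L with
  | nil => exact h
  | cons r L ih =>
    apply ih
    intro p hp
    apply h p
    simp only [List.cons_append, subs, List.mem_cons, List.mem_append]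
    exact Or.inr (Or.inr hp)

theorem enum_spec {f : List (List ℕ) → Bool} : ∀ (C : List (List ℕ)) (k : ℕ)
    (acc : List (List ℕ)), enum n f k C (subs acc) acc = true → ∀ L : List (List ℕ),
      L.Sublist C → L.length = k → soB n (L.reverse ++ acc) = true → f (L.reverse ++ acc) = true := by
  intro C
  induction C with
  | nil =>
    intro k acc h L hL hk _
    rw [List.sublist_nil] at hL
    subst hL
    simp only [List.length_nil] at hk
    subst hk
    simpa [enum] using h
  | cons x xs ih =>
    intro k acc h L hL hk hso
    cases k with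
    | zero =>
      rw [List.length_eq_zero_iff] at hk
      subst hk
      simpa [enum] using h
    | succ k =>
      rw [enum, Bool.and_eq_true] at h
      obtain ⟨h1, h2⟩ := h
      cases hL with
      | cons _ hL => exact ih (k + 1) acc h2 L hL hk hso
      | @cons_cons L' _ _ hL =>
        have h3 : L'.length = k := by simpa using hk
        have h4 : (x :: L').reverse ++ acc = L'.reverse ++ (x :: acc) := by simp
        rw [h4] at hso ⊢
        have h5 := soB_append hso
        have h6 : ((subs acc).map (fun p => (p.1 + 1, mn x p.2))).all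
            (fun p => Nat.ble (p.2.sum + p.1) n) = true := by
          rw [List.all_eq_true]
          intro p hp
          unfold soB at h5
          rw [List.all_eq_true] at h5
          apply h5 p
          simp only [subs, List.mem_cons, List.mem_append]
          exact Or.inr (Or.inl hp)
        simp only [h6, if_true] at h1
        exact ih k (x :: acc) h1 L' hL h3 hso

/-- Merging two coordinates of a list. -/
def mergeL (d z s : ℕ) (l : List ℕ) : List ℕ :=
  (List.range d).map fun c => l.getD (if c < z then c else c + 1) 0 +
    if c == s then l.getD z 0 else 0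

theorem succAbove_val (z : Fin (d + 1)) (i : Fin d) :
    (z.succAbove i).1 = if i.1 < z.1 then i.1 else i.1 + 1 := by
  by_cases h : i.1 < z.1
  · have h' : i.castSucc < z := h
    rw [Fin.succAbove_of_castSucc_lt _ _ h', if_pos h]
    rfl
  · have h' : z ≤ i.castSucc := Fin.not_lt.1 h
    rw [Fin.succAbove_of_le_castSucc _ _ h', if_neg h]
    rfl

theorem ofFn_getD {m : ℕ} (w : Fin m → ℕ) (c : Fin m) : (List.ofFn w).getD c.1 0 = w c := by
  simp [List.getD_eq_getElem?_getD]

theorem ofFn_mergeV (z : Fin (d + 1)) (s : Fin d) (w : Fin (d + 1) → ℕ) :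
    List.ofFn (mergeV z s w) = mergeL d z.1 s.1 (List.ofFn w) := by
  apply List.ext_getElem
  · simp [mergeL]
  · intro i h1 h2
    have hi : i < d := by simpa using h1
    have hA : (List.ofFn w).getD (if i < z.1 then i else i + 1) 0 = w (z.succAbove ⟨i, hi⟩) := by
      rw [← ofFn_getD w (z.succAbove ⟨i, hi⟩), succAbove_val]
    have hB : (List.ofFn w).getD z.1 0 = w z := ofFn_getD w z
    have hC : (mergeL d z.1 s.1 (List.ofFn w))[i]'h2 =
        (List.ofFn w).getD (if i < z.1 then i else i + 1) 0 +
          if i == s.1 then (List.ofFn w).getD z.1 0 else 0 := by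
      simp only [mergeL, List.getElem_map, List.getElem_range]
    rw [hC, hA, hB, List.getElem_ofFn]
    have hD : mergeV z s w ⟨i, hi⟩ = w (z.succAbove ⟨i, hi⟩) +
        if (⟨i, hi⟩ : Fin d) = s then w z else 0 := rfl
    rw [hD]
    by_cases h : i = s.1
    · have h5 : (⟨i, hi⟩ : Fin d) = s := Fin.ext h
      rw [if_pos h5, if_pos (by simpa using h)]
    · have h5 : ¬ (⟨i, hi⟩ : Fin d) = s := fun he => h (congrArg Fin.val he)
      rw [if_neg h5, if_neg (by simpa using h)]

theorem rows_merge (z : Fin (d + 1)) (s : Fin d) (v : Fin n → Fin (d + 1) → ℕ) :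
    rows (fun k => mergeV z s (v k)) = (rows v).map (mergeL d z.1 s.1) := by
  unfold rows
  rw [List.map_ofFn]
  congr 1
  funext i
  exact ofFn_mergeV z s (v i)

/-- Some pair of colours can be merged. -/
def mergeAnyB (n d : ℕ) (L : List (List ℕ)) : Bool :=
  (List.range (d + 1)).any fun z => (List.range d).any fun s =>
    Nat.blt s z && soB n (L.map (mergeL d z s))

theorem of_mergeAnyB {v : Fin n → Fin (d + 1) → ℕ} (h : mergeAnyB n d (rows v) = true) :
    ∃ (z : Fin (d + 1)) (s : Fin d), SpreadOut n (fun k => mergeV z s (v k)) := by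
  unfold mergeAnyB at h
  rw [List.any_eq_true] at h
  obtain ⟨z, hz, h⟩ := h
  rw [List.any_eq_true] at h
  obtain ⟨s, hs, h⟩ := h
  rw [Bool.and_eq_true] at h
  refine ⟨⟨z, List.mem_range.1 hz⟩, ⟨s, List.mem_range.1 hs⟩, ?_⟩
  apply spreadOut_of_soB
  rw [rows_merge]
  exact h.2

end Helper50.SO
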