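import Pool.Agent.Helper13.TS.Fold

set_option autoImplicit false

/-! Meets of spread-out families and tight sets. -/

namespace Helper50.SO

open Helper13.TS (SpreadOut)

variable {n d : ℕ} {ι : Type*}

/-- The coordinatewise minimum of the `v j`, `j ∈ S`. -/
noncomputable def mt (v : ι → Fin d → ℕ) (S : Finset ι) (c : Fin d) : ℕ :=
  sInf {x : ℕ | ∃ j ∈ S, v j c = x}

theorem mt_le {v : ι → Fin d → ℕ} {S : Finset ι} {j : ι} (hj : j ∈ S) (c : Fin d) :
    mt v S c ≤ v j c :=
  Nat.sInf_le ⟨j, hj, rfl⟩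

theorem exists_mt {v : ι → Fin d → ℕ} {S : Finset ι} (hS : S.Nonempty) (c : Fin d) :
    ∃ j ∈ S, v j c = mt v S c := by
  obtain ⟨j, hj⟩ := hS
  exact Nat.sInf_mem (s := {x : ℕ | ∃ j ∈ S, v j c = x}) ⟨v j c, j, hj, rfl⟩

theorem le_mt {v : ι → Fin d → ℕ} {S : Finset ι} (hS : S.Nonempty) {c : Fin d} {m : ℕ}
    (h : ∀ j ∈ S, m ≤ v j c) : m ≤ mt v S c := by
  obtain ⟨j, hj, he⟩ := exists_mt (v := v) hS c
  rw [← he]
  exact h j hj

theorem so_mt {v : ι → Fin d → ℕ} (hs : SpreadOut n v) {S : Finset ι} (hS : S.Nonempty)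
    (hc : S.card ≤ n) : ∑ c, mt v S c + S.card ≤ n := by
  have := hs S hS (mt v S) fun j hj c => mt_le hj c
  omega

theorem so_of_mt {v : ι → Fin d → ℕ}
    (h : ∀ S : Finset ι, S.Nonempty → ∑ c, mt v S c + S.card ≤ n) : SpreadOut n v := by
  intro S hS m hm
  have h1 : ∑ c, m c ≤ ∑ c, mt v S c :=
    Finset.sum_le_sum fun c _ => le_mt hS fun j hj => hm j hj c
  have := h S hS
  omega

/-- Tight sets. -/
def Tight (n : ℕ) (v : ι → Fin d → ℕ) (S : Finset ι) : Prop :=
  ∑ c, mt v S c + S.card = n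

/-- Two tight sets with a common element: the meets of the intersection and of the union. -/
theorem Tight.inter [DecidableEq ι] [Fintype ι] (hι : Fintype.card ι ≤ n) {v : ι → Fin d → ℕ}
    (hs : SpreadOut n v)
    {S S' : Finset ι} (h1 : Tight n v S) (h2 : Tight n v S') (h : (S ∩ S').Nonempty) :
    Tight n v (S ∩ S') ∧ Tight n v (S ∪ S') ∧ (∀ c, mt v (S ∩ S') c = max (mt v S c) (mt v S' c)) ∧
      ∀ c, mt v (S ∪ S') c = min (mt v S c) (mt v S' c) := by
  have hu : (S ∪ S').Nonempty := h.mono (Finset.inter_subset_left.trans Finset.subset_union_left)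
  have hcard : ∀ R : Finset ι, R.card ≤ n := fun R => (Finset.card_le_univ R).trans hι
  have a1 := so_mt hs h (hcard _)
  have a2 := so_mt hs hu (hcard _)
  have a3 := Finset.card_inter_add_card_union S S'
  have hI : ∀ c, max (mt v S c) (mt v S' c) ≤ mt v (S ∩ S') c := by
    intro c
    refine le_mt h fun j hj => ?_
    rw [Finset.mem_inter] at hj
    exact max_le (mt_le hj.1 c) (mt_le hj.2 c)
  have hU : ∀ c, min (mt v S c) (mt v S' c) ≤ mt v (S ∪ S') c := by
    intro c
    refine le_mt hu fun j hj => ?_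
    rw [Finset.mem_union] at hj
    rcases hj with hj | hj
    · exact (min_le_left _ _).trans (mt_le hj c)
    · exact (min_le_right _ _).trans (mt_le hj c)
  have e1 : ∑ c, max (mt v S c) (mt v S' c) + ∑ c, min (mt v S c) (mt v S' c) =
      ∑ c, mt v S c + ∑ c, mt v S' c := by
    rw [← Finset.sum_add_distrib, ← Finset.sum_add_distrib]
    exact Finset.sum_congr rfl fun c _ => max_add_min _ _
  have s1 : ∑ c, max (mt v S c) (mt v S' c) ≤ ∑ c, mt v (S ∩ S') c :=
    Finset.sum_le_sum fun c _ => hI c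
  have s2 : ∑ c, min (mt v S c) (mt v S' c) ≤ ∑ c, mt v (S ∪ S') c :=
    Finset.sum_le_sum fun c _ => hU c
  unfold Tight at h1 h2 ⊢
  have t1 : ∑ c, mt v (S ∩ S') c = ∑ c, max (mt v S c) (mt v S' c) := by omega
  have t2 : ∑ c, mt v (S ∪ S') c = ∑ c, min (mt v S c) (mt v S' c) := by omega
  refine ⟨by omega, by omega, fun c => ?_, fun c => ?_⟩
  · exact ((Finset.sum_eq_sum_iff_of_le fun c _ => hI c).1 t1.symm c (Finset.mem_univ c)).symm
  · exact ((Finset.sum_eq_sum_iff_of_le fun c _ => hU c).1 t2.symm c (Finset.mem_univ c)).symm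

end Helper50.SO
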