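import Pool.Agent.Helper50.SO.Tight

set_option autoImplicit false

/-! A colour `y` with `v i y ≤ 1` for all `i`: the number of colours with which it cannot be merged
is at most the number of labels `i` with `v i y = 1`. -/

namespace Helper50.SO

open Helper13.TS (SpreadOut)
open Pool.Agent.Helper28.SO (mergeV)

variable {n d : ℕ}

/-- `S` is an obstruction for merging the colours `y` and `y.succAbove s`. -/
def Kind (v : Fin n → Fin (d + 1) → ℕ) (y : Fin (d + 1)) (s : Fin d) (S : Finset (Fin n)) : Prop :=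
  Tight n v S ∧ (∃ i ∈ S, v i y = 0) ∧
    ∀ i ∈ S, v i (y.succAbove s) = mt v S (y.succAbove s) → v i y = 1

theorem exists_kind {v : Fin n → Fin (d + 1) → ℕ} (hs : SpreadOut n v) {y : Fin (d + 1)}
    (hy : ∀ i, v i y ≤ 1) {s : Fin d} (h : ¬ SpreadOut n (fun k => mergeV y s (v k))) :
    ∃ S, Kind v y s S := by
  unfold SpreadOut at h
  push Not at h
  obtain ⟨S, hS, m, hm, hlt⟩ := h
  refine ⟨S, ?_⟩
  have hcard : S.card ≤ n := by simpa using Finset.card_le_univ S
  have h1 := so_mt hs hS hcard
  rw [Fin.sum_univ_succAbove _ y] at h1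
  have hms : m s ≤ mt v S (y.succAbove s) + 1 := by
    obtain ⟨j, hj, he⟩ := exists_mt (v := v) hS (y.succAbove s)
    have := hm j hj s
    unfold mergeV at this
    rw [if_pos rfl] at this
    have := hy j
    omega
  have hmc : ∀ c, c ≠ s → m c ≤ mt v S (y.succAbove c) := by
    intro c hc
    refine le_mt hS fun j hj => ?_
    have := hm j hj c
    unfold mergeV at this
    rw [if_neg hc] at this
    omega
  have h2 : ∑ c, m c ≤ ∑ c, (mt v S (y.succAbove c) + if c = s then 1 else 0) := by
    refine Finset.sum_le_sum fun c _ => ?_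
    by_cases hc : c = s
    · subst hc
      rw [if_pos rfl]
      exact hms
    · rw [if_neg hc]
      exact hmc c hc
  rw [Finset.sum_add_distrib, Finset.sum_ite_eq' Finset.univ s, if_pos (Finset.mem_univ s)] at h2
  refine ⟨?_, ?_, ?_⟩
  · unfold Tight
    rw [Fin.sum_univ_succAbove _ y]
    omega
  · obtain ⟨j, hj, he⟩ := exists_mt (v := v) hS y
    exact ⟨j, hj, by omega⟩
  · intro i hi he
    -- equality `m s = mt + 1`
    have h3 : m s = mt v S (y.succAbove s) + 1 := by
      by_contra hne
      have h4 : ∑ c, m c ≤ ∑ c, mt v S (y.succAbove c) := by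
        refine Finset.sum_le_sum fun c _ => ?_
        by_cases hc : c = s
        · subst hc
          omega
        · exact hmc c hc
      omega
    have h5 := hm i hi s
    unfold mergeV at h5
    rw [if_pos rfl] at h5
    have := hy i
    omega

theorem Kind.nonempty {v : Fin n → Fin (d + 1) → ℕ} {y : Fin (d + 1)} {s : Fin d}
    {S : Finset (Fin n)} (h : Kind v y s S) : S.Nonempty := by
  obtain ⟨i, hi, -⟩ := h.2.1
  exact ⟨i, hi⟩

theorem Kind.mt_y {v : Fin n → Fin (d + 1) → ℕ} {y : Fin (d + 1)} {s : Fin d}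
    {S : Finset (Fin n)} (h : Kind v y s S) : mt v S y = 0 := by
  obtain ⟨i, hi, h0⟩ := h.2.1
  have := mt_le (v := v) hi y
  omega

/-- Intersecting an obstruction with a tight set that meets its set of minimisers. -/
theorem Kind.inter {v : Fin n → Fin (d + 1) → ℕ} (hs : SpreadOut n v) {y : Fin (d + 1)}
    {s : Fin d} {S S' : Finset (Fin n)} (h : Kind v y s S) (h' : Tight n v S')
    (h0 : mt v S' y = 0) {x : Fin n} (hx : x ∈ S)
    (hxm : v x (y.succAbove s) = mt v S (y.succAbove s)) (hx' : x ∈ S') :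
    Kind v y s (S ∩ S') := by
  have hne : (S ∩ S').Nonempty := ⟨x, Finset.mem_inter.2 ⟨hx, hx'⟩⟩
  obtain ⟨t1, -, t3, -⟩ := h.1.inter (by simp) hs h' hne
  refine ⟨t1, ?_, ?_⟩
  · obtain ⟨j, hj, he⟩ := exists_mt (v := v) hne y
    refine ⟨j, hj, ?_⟩
    rw [he, t3 y, h.mt_y, h0]
    rfl
  · intro i hi he
    have hi' := Finset.mem_inter.1 hi
    refine h.2.2 i hi'.1 ?_
    have h1 : mt v (S ∩ S') (y.succAbove s) ≤ v x (y.succAbove s) :=
      mt_le (Finset.mem_inter.2 ⟨hx, hx'⟩) _
    have h2 := t3 (y.succAbove s)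
    have h3 := le_max_left (mt v S (y.succAbove s)) (mt v S' (y.succAbove s))
    omega

/-- **The number of colours which cannot be merged with a 0/1 colour.** -/
theorem card_blocked_le {v : Fin n → Fin (d + 1) → ℕ} (hs : SpreadOut n v) (y : Fin (d + 1))
    (hy : ∀ i, v i y ≤ 1) (B : Finset (Fin d))
    (hB : ∀ s ∈ B, ¬ SpreadOut n (fun k => mergeV y s (v k))) :
    B.card ≤ (Finset.univ.filter (fun i => v i y = 1)).card := by
  classical
  -- a minimal obstruction for every `s ∈ B`
  have hmin : ∀ s, ∃ S : Finset (Fin n), s ∈ B → Kind v y s S ∧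
      ∀ S', Kind v y s S' → S.card ≤ S'.card := by
    intro s
    by_cases hsB : s ∈ B
    · have hne : {k : ℕ | ∃ S, Kind v y s S ∧ S.card = k}.Nonempty := by
        obtain ⟨S, hS⟩ := exists_kind hs hy (hB s hsB)
        exact ⟨S.card, S, hS, rfl⟩
      obtain ⟨S, hS, hc⟩ := Nat.sInf_mem hne
      refine ⟨S, fun _ => ⟨hS, fun S' hS' => ?_⟩⟩
      rw [hc]
      exact Nat.sInf_le ⟨S', hS', rfl⟩
    · exact ⟨∅, fun h => absurd h hsB⟩
  choose F hF using hmin
  let X : Fin d → Finset (Fin n) := fun s =>
    (F s).filter (fun i => v i (y.succAbove s) = mt v (F s) (y.succAbove s))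
  have hX1 : ∀ s ∈ B, ∀ i ∈ X s, v i y = 1 := by
    intro s hsB i hi
    have hi' := Finset.mem_filter.1 hi
    exact (hF s hsB).1.2.2 i hi'.1 hi'.2
  have hsub : ∀ s ∈ B, ∀ t ∈ B, ∀ i ∈ X s, i ∈ F t → F s ⊆ F t := by
    intro s hsB t htB i hi hit
    have hi' := Finset.mem_filter.1 hi
    have hk := (hF s hsB).1.inter hs (hF t htB).1.1 (hF t htB).1.mt_y hi'.1 hi'.2 hit
    have h1 := (hF s hsB).2 _ hk
    have h2 : F s ∩ F t = F s := Finset.eq_of_subset_of_card_le Finset.inter_subset_left h1
    rw [← h2]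
    exact Finset.inter_subset_right
  have hcls : ∀ s ∈ B, ∀ t ∈ B, ∀ i, i ∈ X s → i ∈ X t → F s = F t := by
    intro s hsB t htB i hi hi'
    exact Finset.Subset.antisymm (hsub s hsB t htB i hi (Finset.mem_filter.1 hi').1)
      (hsub t htB s hsB i hi' (Finset.mem_filter.1 hi).1)
  let Q : Finset (Fin n) → Finset (Fin d) := fun S => B.filter (fun s => F s = S)
  let XX : Finset (Fin n) → Finset (Fin n) := fun S => (Q S).biUnion X
  have hQX : ∀ S ∈ B.image F, (Q S).card ≤ (XX S).card := by
    intro S hS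
    obtain ⟨s₀, hs₀, rfl⟩ := Finset.mem_image.1 hS
    have hk := (hF s₀ hs₀).1
    have hXS : XX (F s₀) ⊆ F s₀ := by
      intro i hi
      obtain ⟨s, hsQ, hi⟩ := Finset.mem_biUnion.1 hi
      have h1 := Finset.mem_filter.1 hsQ
      have h2 := (Finset.mem_filter.1 hi).1
      rw [h1.2] at h2
      exact h2
    let R := F s₀ \ XX (F s₀)
    have hR : R.Nonempty := by
      obtain ⟨i, hi, h0⟩ := hk.2.1
      refine ⟨i, Finset.mem_sdiff.2 ⟨hi, fun hx => ?_⟩⟩
      obtain ⟨s, hsQ, hi⟩ := Finset.mem_biUnion.1 hx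
      have := hX1 s (Finset.mem_filter.1 hsQ).1 i hi
      omega
    have hRc : R.card + (XX (F s₀)).card = (F s₀).card := by
      rw [Finset.card_sdiff_of_subset hXS]
      have := Finset.card_le_card hXS
      omega
    -- the lower bound for the meet of `R`
    let m : Fin (d + 1) → ℕ := fun c => mt v (F s₀) c +
      ∑ s ∈ Q (F s₀), if c = y.succAbove s then 1 else 0
    have hm : ∀ i ∈ R, ∀ c, m c ≤ v i c := by
      intro i hi c
      have hi' := Finset.mem_sdiff.1 hi
      have h1 : mt v (F s₀) c ≤ v i c := mt_le hi'.1 c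
      by_cases hc : ∃ s ∈ Q (F s₀), c = y.succAbove s
      · obtain ⟨s, hsQ, rfl⟩ := hc
        have h2 : (∑ s' ∈ Q (F s₀), if y.succAbove s = y.succAbove s' then 1 else 0) = 1 := by
          rw [Finset.sum_eq_single s]
          · rw [if_pos rfl]
          · intro s' _ hne
            rw [if_neg]
            intro he
            exact hne (Fin.succAbove_right_injective he).symm
          · intro h
            exact absurd hsQ h
        have h3 := Finset.mem_filter.1 hsQ
        have h4 : v i (y.succAbove s) ≠ mt v (F s₀) (y.succAbove s) := by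
          intro he
          apply hi'.2
          refine Finset.mem_biUnion.2 ⟨s, hsQ, Finset.mem_filter.2 ⟨?_, ?_⟩⟩
          · rw [h3.2]
            exact hi'.1
          · rw [h3.2]
            exact he
        show mt v (F s₀) (y.succAbove s) + _ ≤ _
        rw [h2]
        omega
      · have h2 : (∑ s ∈ Q (F s₀), if c = y.succAbove s then 1 else 0) = 0 := by
          refine Finset.sum_eq_zero fun s hsQ => ?_
          rw [if_neg]
          intro he
          exact hc ⟨s, hsQ, he⟩
        show mt v (F s₀) c + _ ≤ _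
        rw [h2]
        exact h1
    have h5 := hs R hR m hm
    have h6 : ∑ c, m c = ∑ c, mt v (F s₀) c + (Q (F s₀)).card := by
      show ∑ c, (mt v (F s₀) c + _) = _
      rw [Finset.sum_add_distrib, Finset.sum_comm]
      congr 1
      rw [Finset.card_eq_sum_ones]
      refine Finset.sum_congr rfl fun s _ => ?_
      rw [Finset.sum_ite_eq' Finset.univ (y.succAbove s), if_pos (Finset.mem_univ _)]
    have h7 := hk.1
    unfold Tight at h7
    have h8 : R.card ≤ n := by simpa using Finset.card_le_univ R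
    omega
  have hdisj : ((B.image F : Finset (Finset (Fin n))) : Set (Finset (Fin n))).PairwiseDisjoint
      XX := by
    intro S _ S' _ hne
    rw [Function.onFun, Finset.disjoint_left]
    intro i hi hi'
    obtain ⟨s, hsQ, hi⟩ := Finset.mem_biUnion.1 hi
    obtain ⟨t, htQ, hi'⟩ := Finset.mem_biUnion.1 hi'
    have h1 := Finset.mem_filter.1 hsQ
    have h2 := Finset.mem_filter.1 htQ
    apply hne
    rw [← h1.2, ← h2.2]
    exact hcls s h1.1 t h2.1 i hi hi'
  calc B.card = ∑ S ∈ B.image F, (Q S).card :=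
        Finset.card_eq_sum_card_image F B
    _ ≤ ∑ S ∈ B.image F, (XX S).card := Finset.sum_le_sum hQX
    _ = ((B.image F).biUnion XX).card := (Finset.card_biUnion hdisj).symm
    _ ≤ _ := by
        refine Finset.card_le_card fun i hi => ?_
        obtain ⟨S, -, hi⟩ := Finset.mem_biUnion.1 hi
        obtain ⟨s, hsQ, hi⟩ := Finset.mem_biUnion.1 hi
        exact Finset.mem_filter.2 ⟨Finset.mem_univ _, hX1 s (Finset.mem_filter.1 hsQ).1 i hi⟩

/-- A 0/1 colour used by less labels than there are other colours can be merged. -/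
theorem exists_merge_of_zeroOne {v : Fin n → Fin (d + 1) → ℕ} (hs : SpreadOut n v)
    (y : Fin (d + 1)) (hy : ∀ i, v i y ≤ 1)
    (hc : (Finset.univ.filter (fun i => v i y = 1)).card < d) :
    ∃ s : Fin d, SpreadOut n (fun k => mergeV y s (v k)) := by
  classical
  by_contra h
  push Not at h
  have := card_blocked_le hs y hy Finset.univ fun s _ => h s
  rw [Finset.card_univ, Fintype.card_fin] at this
  omega

end Helper50.SO
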